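import Mathlib
import Pool.Agent.W527.TwoPairsTate
import Pool.Agent.H925R2.Core

/-!
# Relations modulo a prime number between translates of a function on the embeddings of a CM field
-/

set_option linter.unusedSectionVars false
set_option linter.unusedVariables false

namespace Pool.Agent.J4.H95.PA

open NumberField Module Pool.Agent.H204R3.CM Pool.Agent.H977R3.WN Pool.Agent.W527
  Pool.Agent.H925R2

noncomputable section

/-- The field `T` has exactly `N` embeddings in `L` if it embeds in `L` and `L` is normal. -/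
theorem card_emb_sub {T L : Type*} [Field T] [NumberField T] [Field L] [NumberField L]
    [IsGalois ℚ L] (φ : T →+* L) : Nat.card (T →+* L) = finrank ℚ T := by
  have h1 : Nat.card (T →ₐ[ℚ] L) = finrank ℚ T := by
    refine AlgHom.natCard_of_splits ℚ T L fun x => ?_
    have h2 := Normal.splits (F := ℚ) (K := L) inferInstance ((φ : T →+* L) x)
    have h3 : minpoly ℚ (φ x) = minpoly ℚ x := by
      have h4 := minpoly.algHom_eq (RingHom.equivRatAlgHom T L φ)
        (RingHom.equivRatAlgHom T L φ).injective x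
      exact h4
    rwa [h3] at h2
  rw [← h1]
  exact Nat.card_congr (RingHom.equivRatAlgHom T L)

variable {K L : Type*} [Field K] [NumberField K] [IsCMField K] [Field L] [NumberField L]
  [IsGalois ℚ L]

/-- The function `c` is odd and orthogonal to the translates of `w`. -/
def Rel (w c : (K →+* L) → ℤ) : Prop :=
  (∀ φ, c (cbar φ) = - c φ) ∧ ∀ g : L ≃ₐ[ℚ] L, ∑ φ : K →+* L, c φ * w (g • φ) = 0

theorem smul_cbar (g : L ≃ₐ[ℚ] L) (φ : K →+* L) : g • cbar φ = cbar (g • φ) := rfl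

theorem Rel.smul {w c : (K →+* L) → ℤ} (hc : Rel w c) (h : L ≃ₐ[ℚ] L) :
    Rel w (fun φ => c (h • φ)) := by
  refine ⟨fun φ => ?_, fun g => ?_⟩
  · change c (h • cbar φ) = - c (h • φ)
    rw [smul_cbar, hc.1]
  · have h1 := hc.2 (g * h⁻¹)
    rw [← h1]
    refine Fintype.sum_equiv (MulAction.toPerm h) _ _ fun φ => ?_
    rw [MulAction.toPerm_apply, mul_smul, inv_smul_smul]

theorem Rel.comb {w c d : (K →+* L) → ℤ} (hc : Rel w c) (hd : Rel w d) (a b : ℤ) :
    Rel w (fun φ => a * c φ - b * d φ) := by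
  refine ⟨fun φ => ?_, fun g => ?_⟩
  · change a * c (cbar φ) - b * d (cbar φ) = - (a * c φ - b * d φ)
    rw [hc.1, hd.1]
    ring
  · have h1 : ∀ φ : K →+* L, (a * c φ - b * d φ) * w (g • φ) =
        a * (c φ * w (g • φ)) - b * (d φ * w (g • φ)) := fun φ => by ring
    rw [Finset.sum_congr rfl fun φ _ => h1 φ, Finset.sum_sub_distrib, ← Finset.mul_sum,
      ← Finset.mul_sum, hc.2, hd.2]
    ring

theorem Rel.div {w c : (K →+* L) → ℤ} (d : ℤ) (hd : d ≠ 0) (hc : Rel w (fun φ => d * c φ)) :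
    Rel w c := by
  refine ⟨fun φ => ?_, fun g => ?_⟩
  · have h1 := hc.1 φ
    apply mul_left_cancel₀ hd
    linarith
  · have h1 := hc.2 g
    apply mul_left_cancel₀ hd
    rw [Finset.mul_sum, mul_zero, ← h1]
    exact Finset.sum_congr rfl fun φ _ => by ring

/-- A nonzero relation vanishes nowhere. -/
def ZeroFree (w : (K →+* L) → ℤ) : Prop :=
  ∀ c, Rel w c → (∃ φ, c φ = 0) → ∀ φ, c φ = 0

/-- If the reductions of relations modulo `r` vanish everywhere as soon as they vanish somewhere,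
then a nonzero relation vanishes nowhere. -/
theorem zeroFree_of_mod (r : ℕ) (hr : 1 < r) {w : (K →+* L) → ℤ}
    (h : ∀ c, Rel w c → (∃ φ, (r : ℤ) ∣ c φ) → ∀ φ, (r : ℤ) ∣ c φ) : ZeroFree w := by
  classical
  rintro c hc ⟨φ₁, h1⟩
  by_contra hcon
  push Not at hcon
  obtain ⟨φ₀, h0⟩ := hcon
  obtain ⟨c', h2, h3⟩ := Finset.extract_gcd (s := (Finset.univ : Finset (K →+* L))) c
    ⟨φ₀, Finset.mem_univ _⟩
  set d := Finset.univ.gcd c with hd
  have hd0 : d ≠ 0 := by
    intro h4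
    apply h0
    rw [h2 φ₀ (Finset.mem_univ _), h4, zero_mul]
  have h4 : Rel w c' := by
    apply Rel.div d hd0
    have h5 : (fun φ => d * c' φ) = c := by
      funext φ
      rw [h2 φ (Finset.mem_univ _)]
    rwa [h5]
  have h5 : c' φ₁ = 0 := by
    have := h2 φ₁ (Finset.mem_univ _)
    rw [h1] at this
    exact (mul_eq_zero.1 this.symm).resolve_left hd0
  have h6 := h c' h4 ⟨φ₁, by rw [h5]; exact dvd_zero _⟩
  have h7 : (r : ℤ) ∣ Finset.univ.gcd c' := Finset.dvd_gcd fun φ _ => h6 φ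
  rw [h3] at h7
  have h8 := Int.le_of_dvd one_pos h7
  have h9 : (1 : ℤ) < r := by exact_mod_cast hr
  omega

/-- In the zero free case a nonzero relation comes from an imaginary quadratic subfield on which
the trace of the function vanishes. -/
theorem quad_of_zeroFree {κ : L ≃ₐ[ℚ] L} (hκ : ∀ φ : K →+* L, κ • φ = cbar φ)
    {w : (K →+* L) → ℤ} (hw : ∀ φ, w (cbar φ) = - w φ) (hzf : ZeroFree w)
    {c : (K →+* L) → ℤ} (hc : Rel w c) (φ₀ : K →+* L) (h0 : c φ₀ ≠ 0) :
    ∃ T : IntermediateField ℚ K, NonReal T ∧ finrank ℚ T = 2 ∧ ∀ ψ : T →+* L, tr T w ψ = 0 := by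
  classical
  have hne : ∀ φ, c φ ≠ 0 := fun φ hφ => h0 (hzf c hc ⟨φ, hφ⟩ φ₀)
  have key : ∀ (g : L ≃ₐ[ℚ] L) (φ φ' : K →+* L), c φ * c (g • φ') = c (g • φ) * c φ' := by
    intro g φ φ'
    have h1 := hzf _ ((hc.smul g).comb hc (c φ) (c (g • φ))) ⟨φ, by ring⟩ φ'
    linarith
  obtain ⟨z, -, hz⟩ := Finset.exists_max_image (Finset.univ : Finset (K →+* L))
    (fun φ => |c φ|) ⟨φ₀, Finset.mem_univ _⟩
  have hM : 0 < |c z| := abs_pos.2 (hne z)
  have habs : ∀ φ, |c φ| = |c z| := by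
    intro φ
    obtain ⟨g, rfl⟩ := MulAction.exists_smul_eq (L ≃ₐ[ℚ] L) z φ
    have h1 := key g z (g⁻¹ • z)
    rw [smul_inv_smul] at h1
    have h2 : |c z| * |c z| = |c (g • z)| * |c (g⁻¹ • z)| := by
      rw [← abs_mul, ← abs_mul, h1]
    have h3 := hz (g • z) (Finset.mem_univ _)
    have h4 := hz (g⁻¹ • z) (Finset.mem_univ _)
    apply le_antisymm h3
    by_contra h5
    push Not at h5
    have h6 : |c (g • z)| * |c (g⁻¹ • z)| < |c z| * |c z| := by
      calc |c (g • z)| * |c (g⁻¹ • z)| ≤ |c (g • z)| * |c z| :=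
            mul_le_mul_of_nonneg_left h4 (abs_nonneg _)
        _ < |c z| * |c z| := mul_lt_mul_of_pos_right h5 hM
    omega
  obtain ⟨T, c', hc', hmin⟩ := exists_factor φ₀ c
  have heq : ∀ φ φ' : K →+* L, c φ = c φ' → res T φ = res T φ' := by
    intro φ φ' h1
    obtain ⟨σ, rfl⟩ := MulAction.exists_smul_eq (L ≃ₐ[ℚ] L) φ' φ
    refine hmin σ φ' fun g => ?_
    have h2 := key g (σ • φ') φ'
    rw [h1, mul_comm] at h2
    exact (mul_right_cancel₀ (hne φ') h2).symm
  have heq' : ∀ ψ ψ' : T →+* L, c' ψ = c' ψ' → ψ = ψ' := by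
    intro ψ ψ' h1
    obtain ⟨φ, rfl⟩ := res_surjective φ₀ T ψ
    obtain ⟨φ', rfl⟩ := res_surjective φ₀ T ψ'
    rw [← hc', ← hc'] at h1
    exact heq φ φ' h1
  have hTr : NonReal T := by
    by_contra hreal
    unfold NonReal at hreal
    push Not at hreal
    have h1 : res T (cbar φ₀) = res T φ₀ := by
      ext x
      rw [res_apply, res_apply, cbar_apply, hreal x x.2]
    have h2 : c (cbar φ₀) = c φ₀ := by rw [hc', hc', h1]
    rw [hc.1] at h2
    omega
  have hodd : ∀ ψ : T →+* L, c' (κ • ψ) = - c' ψ := by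
    intro ψ
    obtain ⟨φ, rfl⟩ := res_surjective φ₀ T ψ
    rw [← res_smul, hκ, ← hc', ← hc', hc.1]
  have hcases : ∀ ψ ψ' : T →+* L, ψ' = ψ ∨ ψ' = κ • ψ := by
    intro ψ ψ'
    have h1 : |c' ψ'| = |c' ψ| := by
      obtain ⟨φ, rfl⟩ := res_surjective φ₀ T ψ
      obtain ⟨φ', rfl⟩ := res_surjective φ₀ T ψ'
      rw [← hc', ← hc', habs φ', habs φ]
    rcases abs_eq_abs.1 h1 with h2 | h2
    · exact Or.inl (heq' _ _ h2)
    · right
      apply heq'
      rw [h2, hodd]
  refine ⟨T, hTr, ?_, fun ψ => ?_⟩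
  · rw [← card_emb_sub (res T φ₀), Nat.card_eq_fintype_card]
    have h1 : (Finset.univ : Finset (T →+* L)) = {res T φ₀, κ • res T φ₀} := by
      ext ψ
      simp only [Finset.mem_univ, Finset.mem_insert, Finset.mem_singleton, true_iff]
      exact hcases _ _
    rw [← Finset.card_univ, h1, Finset.card_pair]
    exact (sub_ne φ₀ hκ hTr (res T φ₀)).symm
  · have h1 := hc.2 1
    have h2 := sum_res T c' w (1 : L ≃ₐ[ℚ] L)
    have h3 : ∀ φ : K →+* L, c φ * w ((1 : L ≃ₐ[ℚ] L) • φ) =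
        c' (res T φ) * w ((1 : L ≃ₐ[ℚ] L) • φ) := fun φ => by rw [hc']
    rw [Finset.sum_congr rfl fun φ _ => h3 φ, h2] at h1
    have h4 : ∀ ψ' : T →+* L, c' ψ' * tr T w ((1 : L ≃ₐ[ℚ] L) • ψ') = c' ψ * tr T w ψ := by
      intro ψ'
      rw [one_smul]
      rcases hcases ψ ψ' with h5 | h5
      · rw [h5]
      · rw [h5, hodd, tr_odd φ₀ hκ T hw]
        ring
    rw [Finset.sum_congr rfl fun ψ' _ => h4 ψ', Finset.sum_const, smul_eq_zero] at h1
    rcases h1 with h5 | h5
    · have : ψ ∈ (Finset.univ : Finset (T →+* L)) := Finset.mem_univ _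
      rw [Finset.card_eq_zero.1 h5] at this
      exact absurd this (Finset.notMem_empty _)
    · refine (mul_eq_zero.1 h5).resolve_left ?_
      obtain ⟨φ, rfl⟩ := res_surjective φ₀ T ψ
      rw [← hc']
      exact hne φ

end

end Pool.Agent.J4.H95.PA
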