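import Mathlib
import Pool.Agent.J4.H95.PA.Core

/-!
# Functions with few values divisible, or few values not divisible, by a prime number
-/

set_option linter.unusedSectionVars false
set_option linter.unusedVariables false

namespace Pool.Agent.J4.H95.PA

open NumberField Module Pool.Agent.H204R3.CM Pool.Agent.H977R3.WN Pool.Agent.W527
  Pool.Agent.H925R2

noncomputable section

variable {K L : Type*} [Field K] [NumberField K] [IsCMField K] [Field L] [NumberField L]
  [IsGalois ℚ L]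

/-- `φ` is one of `x`, `conj x`. -/
def InPair (x φ : K →+* L) : Prop := φ = x ∨ φ = cbar x

theorem inPair_cbar (x φ : K →+* L) : InPair x (cbar φ) ↔ InPair x φ := by
  unfold InPair
  constructor
  · rintro (h | h)
    · right; rw [← h, cbar_cbar]
    · left; rw [← cbar_cbar φ, h, cbar_cbar]
  · rintro (h | h)
    · right; rw [h]
    · left; rw [h, cbar_cbar]

theorem inPair_smul (g : L ≃ₐ[ℚ] L) (x φ : K →+* L) : InPair x (g • φ) ↔ InPair (g⁻¹ • x) φ := by
  unfold InPair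
  rw [← smul_cbar, eq_inv_smul_iff, eq_inv_smul_iff]

/-- The only real elements of `K` at which `x` and `y` agree are the rational numbers. -/
def Apart (x y : K →+* L) : Prop :=
  ∀ z : K, IsCMField.complexConj K z = z → x z = y z → z ∈ (algebraMap ℚ K).range

/-- If a property of embeddings is the same for conjugate embeddings, and the same at all
translates of `x` and `y`, then it is constant, if `x` and `y` agree only at rational numbers. -/
theorem const_of_apart {κ : L ≃ₐ[ℚ] L} (hκ : ∀ φ : K →+* L, κ • φ = cbar φ)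
    {x y : K →+* L} (hxy : Apart x y) {X : Type*} [Nonempty X] (f : (K →+* L) → X)
    (hf : ∀ φ, f (cbar φ) = f φ) (h : ∀ g : L ≃ₐ[ℚ] L, f (g • x) = f (g • y)) (φ φ' : K →+* L) :
    f φ = f φ' := by
  obtain ⟨T, f', hf', hmin⟩ := exists_factor x f
  have h1 : res T y = res T x := by
    obtain ⟨δ, hδ⟩ := MulAction.exists_smul_eq (L ≃ₐ[ℚ] L) x y
    have h2 := hmin δ x (fun g => by rw [hδ]; exact (h g).symm)
    rwa [hδ] at h2
  have h2 : ∀ φ : K →+* L, res T (cbar φ) = res T φ := by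
    intro φ
    rw [← hκ]
    refine hmin κ φ fun g => ?_
    rw [hκ, smul_cbar, hf]
  have h3 : ∀ z ∈ T, z ∈ (algebraMap ℚ K).range := by
    intro z hz
    apply hxy z
    · apply x.injective
      have h4 := RingHom.congr_fun (h2 x) (⟨z, hz⟩ : T)
      exact h4
    · exact (RingHom.congr_fun h1 (⟨z, hz⟩ : T)).symm
  rw [hf', hf']
  congr 1
  ext z
  obtain ⟨q, hq⟩ := h3 z z.2
  rw [res_apply, res_apply, ← hq]
  simp

/-- Parity. -/
theorem sum_even {κ : L ≃ₐ[ℚ] L} (hκ : ∀ φ : K →+* L, κ • φ = cbar φ)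
    (F : (K →+* L) → ℤ) (hF : ∀ φ, F (cbar φ) = F φ) : (2 : ℤ) ∣ ∑ φ, F φ := by
  classical
  obtain ⟨Φ, hΦ⟩ := exists_isHalf (inv := fun φ : K →+* L => cbar φ) (fun φ => cbar_cbar φ)
    (fun φ => cbar_ne' hκ φ)
  rw [hΦ.sum_symm (fun φ => cbar_cbar φ) F hF]
  exact ⟨_, (two_mul _).symm⟩

/-- If `w` is divisible by `r` outside two pairs, a relation gives a relation between the values at
the translates of these pairs, modulo `r`. -/
theorem rel_two {κ : L ≃ₐ[ℚ] L} (hκ : ∀ φ : K →+* L, κ • φ = cbar φ) (r : ℕ)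
    {w : (K →+* L) → ℤ} (hw : ∀ φ, w (cbar φ) = - w φ) {x y : K →+* L}
    (hxy : ¬ InPair x y) (hr : ∀ φ, ¬ InPair x φ → ¬ InPair y φ → (r : ℤ) ∣ w φ)
    {c : (K →+* L) → ℤ} (hc : Rel w c) (g : L ≃ₐ[ℚ] L) :
    (r : ℤ) ∣ w x * c (g • x) + w y * c (g • y) := by
  classical
  let w' : (K →+* L) → ℤ := fun φ => w φ - spike (w x) x φ - spike (w y) y φ
  have hne : ∀ φ : K →+* L, cbar φ ≠ φ := cbar_ne' hκ
  have hsp : ∀ (a : ℤ) (z φ : K →+* L), spike a z (cbar φ) = - spike a z φ := by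
    intro a z φ
    unfold spike
    have e1 : (cbar φ = z) ↔ (φ = cbar z) :=
      ⟨fun h => by rw [← h, cbar_cbar], fun h => by rw [h, cbar_cbar]⟩
    have e2 : (cbar φ = cbar z) ↔ (φ = z) :=
      ⟨fun h => by rw [← cbar_cbar φ, h, cbar_cbar], fun h => by rw [h]⟩
    simp only [e1, e2]
    ring
  have hw' : ∀ φ, w' (cbar φ) = - w' φ := by
    intro φ
    simp only [w', hw, hsp]
    ring
  have hspx : ∀ (a : ℤ) (z : K →+* L), spike a z z = a := by
    intro a z
    unfold spike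
    rw [if_pos rfl, if_neg (fun h => hne z h.symm)]
    ring
  have hsp0 : ∀ (a : ℤ) (z φ : K →+* L), ¬ InPair z φ → spike a z φ = 0 := by
    intro a z φ h
    unfold spike
    rw [if_neg (fun h1 => h (Or.inl h1)), if_neg (fun h1 => h (Or.inr h1))]
    ring
  have hyx : ¬ InPair y x := by
    rintro (h | h)
    · exact hxy (Or.inl h.symm)
    · exact hxy (Or.inr (by rw [h, cbar_cbar]))
  have hd : ∀ φ, (r : ℤ) ∣ w' φ := by
    have hx0 : w' x = 0 := by
      simp only [w', hspx, hsp0 (w y) y x hyx]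
      ring
    have hy0 : w' y = 0 := by
      simp only [w', hspx, hsp0 (w x) x y hxy]
      ring
    intro φ
    by_cases h1 : InPair x φ
    · rcases h1 with h1 | h1
      · rw [h1, hx0]; exact dvd_zero _
      · rw [h1, hw', hx0, neg_zero]; exact dvd_zero _
    · by_cases h2 : InPair y φ
      · rcases h2 with h2 | h2
        · rw [h2, hy0]; exact dvd_zero _
        · rw [h2, hw', hy0, neg_zero]; exact dvd_zero _
      · simp only [w', hsp0 _ x φ h1, hsp0 _ y φ h2]
        simpa using hr φ h1 h2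
  choose v hv using hd
  by_cases hr0 : (r : ℤ) = 0
  · have h1 := hc.2 g⁻¹
    have h2 : ∀ φ : K →+* L, c φ * w (g⁻¹ • φ) =
        c φ * spike (w x) x (g⁻¹ • φ) + c φ * spike (w y) y (g⁻¹ • φ) := by
      intro φ
      have h3 := hv (g⁻¹ • φ)
      rw [hr0, zero_mul] at h3
      simp only [w'] at h3
      have h4 : w (g⁻¹ • φ) = spike (w x) x (g⁻¹ • φ) + spike (w y) y (g⁻¹ • φ) := by linarith
      rw [h4]
      ring
    rw [Finset.sum_congr rfl fun φ _ => h2 φ, Finset.sum_add_distrib, sum_spike c hc.1,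
      sum_spike c hc.1, inv_inv] at h1
    have h5 : w x * c (g • x) + w y * c (g • y) = 0 := by linarith
    rw [h5]
    exact dvd_zero _
  have hvodd : ∀ φ, v (cbar φ) = - v φ := by
    intro φ
    apply mul_left_cancel₀ hr0
    rw [← hv, hw', hv]
    ring
  have h1 := hc.2 g⁻¹
  have h2 : ∀ φ : K →+* L, c φ * w (g⁻¹ • φ) =
      c φ * spike (w x) x (g⁻¹ • φ) + c φ * spike (w y) y (g⁻¹ • φ) +
        r * (c φ * v (g⁻¹ • φ)) := by
    intro φ
    have h3 := hv (g⁻¹ • φ)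
    simp only [w'] at h3
    have h4 : w (g⁻¹ • φ) = spike (w x) x (g⁻¹ • φ) + spike (w y) y (g⁻¹ • φ) +
      r * v (g⁻¹ • φ) := by linarith
    rw [h4]
    ring
  rw [Finset.sum_congr rfl fun φ _ => h2 φ, Finset.sum_add_distrib, Finset.sum_add_distrib,
    sum_spike c hc.1, sum_spike c hc.1, inv_inv, ← Finset.mul_sum] at h1
  obtain ⟨s, hs⟩ := sum_even hκ (fun φ => c φ * v (g⁻¹ • φ)) (by
    intro φ
    change c (cbar φ) * v (g⁻¹ • cbar φ) = c φ * v (g⁻¹ • φ)
    rw [hc.1, smul_cbar, hvodd]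
    ring)
  rw [hs] at h1
  refine ⟨-s, ?_⟩
  linarith

theorem dvd_cbar {w c : (K →+* L) → ℤ} (hc : Rel w c) (r : ℤ) (φ : K →+* L) :
    (r ∣ c (cbar φ)) = (r ∣ c φ) := by
  rw [hc.1, dvd_neg]

/-- **One pair.** -/
theorem zero_of_one {κ : L ≃ₐ[ℚ] L} (hκ : ∀ φ : K →+* L, κ • φ = cbar φ) (r : ℕ) (hr : r.Prime)
    {w : (K →+* L) → ℤ} (hw : ∀ φ, w (cbar φ) = - w φ) {x : K →+* L}
    (hx : ¬ (r : ℤ) ∣ w x) (hr' : ∀ φ, ¬ InPair x φ → (r : ℤ) ∣ w φ)
    {c : (K →+* L) → ℤ} (hc : Rel w c) (φ : K →+* L) : (r : ℤ) ∣ c φ := by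
  classical
  have hp : Prime (r : ℤ) := Nat.prime_iff_prime_int.1 hr
  obtain ⟨g, rfl⟩ := MulAction.exists_smul_eq (L ≃ₐ[ℚ] L) x φ
  by_cases hall : ∀ y : K →+* L, InPair x y
  · -- there is only one pair
    have hne : ∀ φ : K →+* L, cbar φ ≠ φ := cbar_ne' hκ
    have h1 := hc.2 g⁻¹
    have h2 : ∀ φ : K →+* L, c φ * w (g⁻¹ • φ) = c φ * spike (w x) x (g⁻¹ • φ) := by
      intro φ
      congr 1
      rcases hall (g⁻¹ • φ) with h | h
      · rw [h]
        unfold spike
        rw [if_pos rfl, if_neg (fun h => hne x h.symm)]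
        ring
      · rw [h]
        unfold spike
        rw [if_neg (hne x), if_pos rfl, hw]
        ring
    rw [Finset.sum_congr rfl fun φ _ => h2 φ, sum_spike c hc.1, inv_inv] at h1
    have h3 : w x * c (g • x) = 0 := by linarith
    rcases mul_eq_zero.1 h3 with h4 | h4
    · exact absurd (by rw [h4]; exact dvd_zero _) hx
    · rw [h4]; exact dvd_zero _
  · push Not at hall
    obtain ⟨y, hy⟩ := hall
    have h1 := rel_two hκ r hw hy (fun φ h _ => hr' φ h) hc g
    have h2 : (r : ℤ) ∣ w y * c (g • y) := Dvd.dvd.mul_right (hr' y hy) _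
    have h3 : (r : ℤ) ∣ w x * c (g • x) := (dvd_add_left h2).1 h1
    exact (hp.dvd_or_dvd h3).resolve_left hx

/-- **Two pairs**: the vanishing of `c` modulo `r` at translates of `x` and of `y`. -/
theorem dvd_iff_of_two {κ : L ≃ₐ[ℚ] L} (hκ : ∀ φ : K →+* L, κ • φ = cbar φ) (r : ℕ)
    (hr : r.Prime)
    {w : (K →+* L) → ℤ} (hw : ∀ φ, w (cbar φ) = - w φ) {x y : K →+* L}
    (hxy : ¬ InPair x y) (hx : ¬ (r : ℤ) ∣ w x) (hy : ¬ (r : ℤ) ∣ w y)
    (hr' : ∀ φ, ¬ InPair x φ → ¬ InPair y φ → (r : ℤ) ∣ w φ)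
    {c : (K →+* L) → ℤ} (hc : Rel w c) (g : L ≃ₐ[ℚ] L) :
    ((r : ℤ) ∣ c (g • x)) ↔ ((r : ℤ) ∣ c (g • y)) := by
  have hp : Prime (r : ℤ) := Nat.prime_iff_prime_int.1 hr
  have h1 := rel_two hκ r hw hxy hr' hc g
  constructor
  · intro h
    have h2 : (r : ℤ) ∣ w x * c (g • x) := Dvd.dvd.mul_left h _
    exact (hp.dvd_or_dvd ((dvd_add_right h2).1 h1)).resolve_left hy
  · intro h
    have h2 : (r : ℤ) ∣ w y * c (g • y) := Dvd.dvd.mul_left h _
    exact (hp.dvd_or_dvd ((dvd_add_left h2).1 h1)).resolve_left hx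

/-- **Two pairs.** -/
theorem zeroFree_of_two {κ : L ≃ₐ[ℚ] L} (hκ : ∀ φ : K →+* L, κ • φ = cbar φ) (r : ℕ)
    (hr : r.Prime)
    {w : (K →+* L) → ℤ} (hw : ∀ φ, w (cbar φ) = - w φ) {x y : K →+* L}
    (hxy : ¬ InPair x y) (hap : Apart x y) (hx : ¬ (r : ℤ) ∣ w x) (hy : ¬ (r : ℤ) ∣ w y)
    (hr' : ∀ φ, ¬ InPair x φ → ¬ InPair y φ → (r : ℤ) ∣ w φ) : ZeroFree w := by
  refine zeroFree_of_mod r hr.one_lt ?_
  rintro c hc ⟨φ₁, h1⟩ φ
  have h2 := const_of_apart hκ hap (fun φ => (r : ℤ) ∣ c φ) (fun φ => dvd_cbar hc _ φ)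
    (fun g => propext (dvd_iff_of_two hκ r hr hw hxy hx hy hr' hc g)) φ₁ φ
  exact h2 ▸ h1

/-- If a nonzero function modulo an odd prime number is multiplied by a constant when the
translates of `x` are replaced by those of `y`, then `x` and `y` have the same image on some CM
subfield. -/
theorem exists_same_image {κ : L ≃ₐ[ℚ] L} (hκ : ∀ φ : K →+* L, κ • φ = cbar φ) {r : ℕ}
    [Fact r.Prime] (hr2 : r ≠ 2) {x y : K →+* L} {c : (K →+* L) → ZMod r}
    (hc : ∀ φ, c (cbar φ) = - c φ) {φ₁ : K →+* L} (h1 : c φ₁ ≠ 0) {l : ZMod r}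
    (h : ∀ g : L ≃ₐ[ℚ] L, c (g • y) = l * c (g • x)) :
    ∃ T : IntermediateField ℚ K, NonReal T ∧ ∀ z ∈ T, ∃ z' ∈ T, y z = x z' := by
  obtain ⟨T, c', hc', hmin⟩ := exists_factor x c
  refine ⟨T, ?_, fun z hz => ?_⟩
  · by_contra hreal
    unfold NonReal at hreal
    push Not at hreal
    have h2 : res T (cbar φ₁) = res T φ₁ := by
      ext x
      rw [res_apply, res_apply, cbar_apply, hreal x x.2]
    have h3 : c (cbar φ₁) = c φ₁ := by rw [hc', hc', h2]
    rw [hc] at h3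
    apply h1
    have h4 : (2 : ZMod r) * c φ₁ = 0 := by
      linear_combination -h3
    refine (mul_eq_zero.1 h4).resolve_left ?_
    intro h5
    have h6 : ((2 : ℕ) : ZMod r) = 0 := by exact_mod_cast h5
    rw [ZMod.natCast_eq_zero_iff] at h6
    exact hr2 ((Nat.prime_dvd_prime_iff_eq Fact.out Nat.prime_two).1 h6)
  · obtain ⟨z', hz'⟩ := mem_range_of_fixed (res T x) (y z) (by
      intro g hg
      have h2 : ∀ g' : L ≃ₐ[ℚ] L, c (g' • g • y) = c (g' • y) := by
        intro g'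
        rw [← mul_smul, h, h, mul_smul]
        congr 1
        have h3 : c (g' • g • x) = c (g' • x) := by
          rw [hc', hc', res_smul, res_smul, res_smul, hg]
        exact h3
      have h3 := hmin g y h2
      exact RingHom.congr_fun h3 (⟨z, hz⟩ : T))
    exact ⟨z', z'.2, hz'.symm⟩

/-- **Two pairs, odd prime number.** -/
theorem zero_of_two {κ : L ≃ₐ[ℚ] L} (hκ : ∀ φ : K →+* L, κ • φ = cbar φ) (r : ℕ)
    (hr : r.Prime) (hr2 : r ≠ 2)
    {w : (K →+* L) → ℤ} (hw : ∀ φ, w (cbar φ) = - w φ) {x y : K →+* L}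
    (hxy : ¬ InPair x y) (hx : ¬ (r : ℤ) ∣ w x) (hy : ¬ (r : ℤ) ∣ w y)
    (hr' : ∀ φ, ¬ InPair x φ → ¬ InPair y φ → (r : ℤ) ∣ w φ)
    (him : ∀ T : IntermediateField ℚ K, NonReal T → ∃ z ∈ T, ∀ z' ∈ T, y z ≠ x z')
    {c : (K →+* L) → ℤ} (hc : Rel w c) (φ : K →+* L) : (r : ℤ) ∣ c φ := by
  by_contra hcon
  have _ : Fact r.Prime := ⟨hr⟩
  have hz : ∀ n : ℤ, ((n : ZMod r) = 0) ↔ (r : ℤ) ∣ n := fun n => ZMod.intCast_zmod_eq_zero_iff_dvd n r
  have hwy : ((w y : ℤ) : ZMod r) ≠ 0 := fun h => hy ((hz _).1 h)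
  obtain ⟨T, hT, h1⟩ := exists_same_image hκ (r := r) hr2 (x := x) (y := y)
    (c := fun φ => ((c φ : ℤ) : ZMod r)) (fun φ => by
      change ((c (cbar φ) : ℤ) : ZMod r) = - ((c φ : ℤ) : ZMod r)
      rw [hc.1]; push_cast; ring) (φ₁ := φ)
    (fun h => hcon ((hz _).1 h)) (l := - ((w x : ℤ) : ZMod r) * (((w y : ℤ) : ZMod r))⁻¹)
    (fun g => by
      have h2 := rel_two hκ r hw hxy hr' hc g
      rw [← hz] at h2
      push_cast at h2
      field_simp
      linear_combination h2)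
  obtain ⟨z, hz1, hz2⟩ := him T hT
  obtain ⟨z', hz'1, hz'2⟩ := h1 z hz1
  exact hz2 z' hz'1 hz'2

/-! ### Almost all values odd -/

open Classical in
/-- The values of a relation modulo two. -/
theorem rel_even {κ : L ≃ₐ[ℚ] L} (hκ : ∀ φ : K →+* L, κ • φ = cbar φ)
    {w : (K →+* L) → ℤ} (hw : ∀ φ, w (cbar φ) = - w φ)
    {c : (K →+* L) → ℤ} (hc : Rel w c) {Φ : Finset (K →+* L)}
    (hΦ : IsHalf (fun φ : K →+* L => cbar φ) Φ) (g : L ≃ₐ[ℚ] L) :
    ∑ φ ∈ Φ, ((c φ : ℤ) : ZMod 2) =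
      ∑ φ ∈ Φ with (2 : ℤ) ∣ w (g⁻¹ • φ), ((c φ : ℤ) : ZMod 2) := by
  have h1 := hc.2 g⁻¹
  rw [hΦ.sum_symm (fun φ => cbar_cbar φ) (fun φ => c φ * w (g⁻¹ • φ)) (by
    intro φ
    change c (cbar φ) * w (g⁻¹ • cbar φ) = c φ * w (g⁻¹ • φ)
    rw [hc.1, smul_cbar, hw]
    ring)] at h1
  have h2 : ∑ φ ∈ Φ, c φ * w (g⁻¹ • φ) = 0 := by linarith
  have h3 := congrArg (fun n : ℤ => (n : ZMod 2)) h2
  push_cast at h3
  have h4 : ∀ φ ∈ Φ, ((c φ : ℤ) : ZMod 2) * ((w (g⁻¹ • φ) : ℤ) : ZMod 2) =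
      ((c φ : ℤ) : ZMod 2) - (if (2 : ℤ) ∣ w (g⁻¹ • φ) then ((c φ : ℤ) : ZMod 2) else 0) := by
    intro φ _
    by_cases h5 : (2 : ℤ) ∣ w (g⁻¹ • φ)
    · have h6 : ((w (g⁻¹ • φ) : ℤ) : ZMod 2) = 0 :=
        (ZMod.intCast_zmod_eq_zero_iff_dvd _ 2).2 (by exact_mod_cast h5)
      rw [if_pos h5, h6]
      ring
    · have h6 : ((w (g⁻¹ • φ) : ℤ) : ZMod 2) ≠ 0 := fun h =>
        h5 (by exact_mod_cast (ZMod.intCast_zmod_eq_zero_iff_dvd _ 2).1 h)
      have h7 : ∀ t : ZMod 2, t ≠ 0 → t = 1 := by decide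
      rw [if_neg h5, h7 _ h6]
      ring
  rw [Finset.sum_congr rfl h4, Finset.sum_sub_distrib, sub_eq_zero] at h3
  rw [h3, Finset.sum_filter]

theorem cast_cbar {w c : (K →+* L) → ℤ} (hc : Rel w c) (φ : K →+* L) :
    ((c (cbar φ) : ℤ) : ZMod 2) = ((c φ : ℤ) : ZMod 2) := by
  rw [hc.1]
  push_cast
  have : ∀ t : ZMod 2, -t = t := by decide
  exact this _

open Classical in
/-- The sum over the members of a pair in a half system. -/
theorem sum_pair {κ : L ≃ₐ[ℚ] L} (hκ : ∀ φ : K →+* L, κ • φ = cbar φ)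
    {w : (K →+* L) → ℤ} {c : (K →+* L) → ℤ} (hc : Rel w c) {Φ : Finset (K →+* L)}
    (hΦ : IsHalf (fun φ : K →+* L => cbar φ) Φ) (x : K →+* L) :
    ∑ φ ∈ Φ with InPair x φ, ((c φ : ℤ) : ZMod 2) = ((c x : ℤ) : ZMod 2) := by
  have hne : ∀ φ : K →+* L, cbar φ ≠ φ := cbar_ne' hκ
  by_cases hx : x ∈ Φ
  · have h1 : Φ.filter (fun φ => InPair x φ) = {x} := by
      ext φ
      rw [Finset.mem_filter, Finset.mem_singleton]
      constructor
      · rintro ⟨h2, h3 | h3⟩
        · exact h3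
        · rw [h3] at h2
          exact absurd h2 ((hΦ x).1 hx)
      · rintro rfl
        exact ⟨hx, Or.inl rfl⟩
    rw [h1, Finset.sum_singleton]
  · have hx' : cbar x ∈ Φ := by
      rw [hΦ x, not_not] at hx
      exact hx
    have h1 : Φ.filter (fun φ => InPair x φ) = {cbar x} := by
      ext φ
      rw [Finset.mem_filter, Finset.mem_singleton]
      constructor
      · rintro ⟨h2, h3 | h3⟩
        · rw [h3] at h2
          exact absurd h2 hx
        · exact h3
      · rintro rfl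
        exact ⟨hx', Or.inr rfl⟩
    rw [h1, Finset.sum_singleton, cast_cbar hc]

/-- **All pairs but one are odd.** -/
theorem zeroFree_of_even_one {κ : L ≃ₐ[ℚ] L} (hκ : ∀ φ : K →+* L, κ • φ = cbar φ)
    {w : (K →+* L) → ℤ} (hw : ∀ φ, w (cbar φ) = - w φ) {x : K →+* L}
    (hx : (2 : ℤ) ∣ w x) (hr' : ∀ φ, ¬ InPair x φ → ¬ (2 : ℤ) ∣ w φ) : ZeroFree w := by
  classical
  refine zeroFree_of_mod 2 one_lt_two ?_
  rintro c hc ⟨φ₁, h1⟩ φ
  obtain ⟨Φ, hΦ⟩ := exists_isHalf (inv := fun φ : K →+* L => cbar φ) (fun φ => cbar_cbar φ)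
    (fun φ => cbar_ne' hκ φ)
  have h2 : ∀ g : L ≃ₐ[ℚ] L, ∑ φ ∈ Φ, ((c φ : ℤ) : ZMod 2) = ((c (g • x) : ℤ) : ZMod 2) := by
    intro g
    rw [rel_even hκ hw hc hΦ g, ← sum_pair hκ hc hΦ (g • x)]
    refine Finset.sum_congr (Finset.filter_congr fun φ _ => ?_) fun _ _ => rfl
    have h3 : InPair (g • x) φ ↔ InPair x (g⁻¹ • φ) := by
      rw [inPair_smul, inv_inv]
    rw [h3]
    constructor
    · intro h4
      by_contra h5
      exact hr' _ h5 h4
    · rintro (h4 | h4)
      · rw [h4]; exact hx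
      · rw [h4, hw]; exact (dvd_neg).2 hx
  have h3 : ∀ φ, ((c φ : ℤ) : ZMod 2) = ∑ φ ∈ Φ, ((c φ : ℤ) : ZMod 2) := by
    intro φ
    obtain ⟨g, rfl⟩ := MulAction.exists_smul_eq (L ≃ₐ[ℚ] L) x φ
    exact (h2 g).symm
  have h4 : ((c φ₁ : ℤ) : ZMod 2) = 0 :=
    (ZMod.intCast_zmod_eq_zero_iff_dvd _ 2).2 h1
  refine (ZMod.intCast_zmod_eq_zero_iff_dvd _ 2).1 ?_
  rw [h3 φ, ← h3 φ₁, h4]

/-- **All pairs but two are odd.** -/
theorem zeroFree_of_even_two {κ : L ≃ₐ[ℚ] L} (hκ : ∀ φ : K →+* L, κ • φ = cbar φ)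
    {w : (K →+* L) → ℤ} (hw : ∀ φ, w (cbar φ) = - w φ) {x y : K →+* L}
    (hxy : ¬ InPair x y) (hap : Apart x y)
    (hx : (2 : ℤ) ∣ w x) (hy : (2 : ℤ) ∣ w y)
    (hr' : ∀ φ, ¬ InPair x φ → ¬ InPair y φ → ¬ (2 : ℤ) ∣ w φ)
    (hdeg : finrank ℚ K % 8 ≠ 4 ∨
      ∀ T : IntermediateField ℚ K, ¬ NonReal T → finrank ℚ T ≠ 2) : ZeroFree w := by
  classical
  refine zeroFree_of_mod 2 one_lt_two ?_
  rintro c hc ⟨φ₁, h1⟩ φ
  obtain ⟨Φ, hΦ⟩ := exists_isHalf (inv := fun φ : K →+* L => cbar φ) (fun φ => cbar_cbar φ)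
    (fun φ => cbar_ne' hκ φ)
  set f : (K →+* L) → ZMod 2 := fun φ => ((c φ : ℤ) : ZMod 2) with hf
  have hfc : ∀ φ, f (cbar φ) = f φ := fun φ => cast_cbar hc φ
  have h2 : ∀ g : L ≃ₐ[ℚ] L, ∑ φ ∈ Φ, f φ = f (g • x) + f (g • y) := by
    intro g
    have e0 := rel_even hκ hw hc hΦ g
    have e1 := sum_pair hκ hc hΦ (g • x)
    have e2 := sum_pair hκ hc hΦ (g • y)
    change _ = f (g • x) at e1
    change _ = f (g • y) at e2
    change ∑ φ ∈ Φ, f φ = _ at e0
    rw [e0, ← e1, ← e2, ← Finset.sum_union]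
    · refine Finset.sum_congr ?_ fun _ _ => rfl
      ext φ
      rw [Finset.mem_filter, Finset.mem_union, Finset.mem_filter, Finset.mem_filter]
      have h3 : ∀ z, InPair (g • z) φ ↔ InPair z (g⁻¹ • φ) := fun z => by
        rw [inPair_smul, inv_inv]
      rw [h3, h3]
      constructor
      · rintro ⟨h4, h5⟩
        by_contra h6
        push Not at h6
        exact hr' _ (h6.1 h4) (h6.2 h4) h5
      · rintro (⟨h4, h5 | h5⟩ | ⟨h4, h5 | h5⟩)
        · exact ⟨h4, by rw [h5]; exact hx⟩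
        · exact ⟨h4, by rw [h5, hw]; exact (dvd_neg).2 hx⟩
        · exact ⟨h4, by rw [h5]; exact hy⟩
        · exact ⟨h4, by rw [h5, hw]; exact (dvd_neg).2 hy⟩
    · rw [Finset.disjoint_left]
      intro φ h3 h4
      rw [Finset.mem_filter] at h3 h4
      apply hxy
      have h5 : ∀ z, InPair (g • z) φ ↔ InPair z (g⁻¹ • φ) := fun z => by
        rw [inPair_smul, inv_inv]
      have h6 := (h5 x).1 h3.2
      have h7 := (h5 y).1 h4.2
      rcases h6 with h6 | h6 <;> rcases h7 with h7 | h7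
      · exact Or.inl (h7.symm.trans h6)
      · right
        rw [← h6, h7, cbar_cbar]
      · right
        rw [← h7, h6]
      · left
        rw [← cbar_cbar y, ← h7, h6, cbar_cbar]
  have hzero : ∀ n : ℤ, ((n : ZMod 2) = 0) ↔ (2 : ℤ) ∣ n :=
    fun n => ZMod.intCast_zmod_eq_zero_iff_dvd n 2
  have h01 : ∀ t : ZMod 2, t = 0 ∨ t = 1 := by decide
  rcases h01 (∑ φ ∈ Φ, f φ) with hC | hC
  · -- the sum is even
    have h3 : ∀ g : L ≃ₐ[ℚ] L, f (g • x) = f (g • y) := by
      intro g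
      have h4 := h2 g
      rw [hC] at h4
      have : ∀ a b : ZMod 2, 0 = a + b → a = b := by decide
      exact this _ _ h4
    have h4 := const_of_apart hκ hap f hfc h3 φ₁ φ
    refine (hzero _).1 ?_
    change f φ = 0
    rw [← h4]
    exact (hzero _).2 h1
  · exfalso
    -- the function is a character
    have h3 : ∀ g : L ≃ₐ[ℚ] L, f (g • y) = f (g • x) + 1 := by
      intro g
      have h4 := h2 g
      rw [hC] at h4
      have : ∀ a b : ZMod 2, 1 = a + b → b = a + 1 := by decide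
      exact this _ _ h4
    have h4 : ∀ φ φ' : K →+* L, (fun g : L ≃ₐ[ℚ] L => f (g • φ) + f φ) =
        (fun g : L ≃ₐ[ℚ] L => f (g • φ') + f φ') := by
      refine const_of_apart hκ hap (fun φ => fun g : L ≃ₐ[ℚ] L => f (g • φ) + f φ) ?_ ?_
      · intro φ
        funext g
        change f (g • cbar φ) + f (cbar φ) = f (g • φ) + f φ
        rw [smul_cbar, hfc, hfc]
      · intro g
        funext g'
        change f (g' • g • x) + f (g • x) = f (g' • g • y) + f (g • y)
        rw [← mul_smul, ← mul_smul, h3, h3]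
        have : ∀ a b : ZMod 2, a + b = a + 1 + (b + 1) := by decide
        exact this _ _
    have h4' : ∀ (g : L ≃ₐ[ℚ] L) (φ φ' : K →+* L), f (g • φ) + f φ = f (g • φ') + f φ' :=
      fun g φ φ' => congrFun (h4 φ φ') g
    obtain ⟨δ, hδ⟩ := MulAction.exists_smul_eq (L ≃ₐ[ℚ] L) x y
    have hflip : ∀ φ, f (δ • φ) = f φ + 1 := by
      intro φ
      have h5 := h4' δ φ x
      rw [hδ] at h5
      have h6 := h3 1
      rw [one_smul, one_smul] at h6
      rw [h6] at h5
      have : ∀ a b c : ZMod 2, a + b = c + 1 + c → a = b + 1 := by decide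
      exact this _ _ _ h5
    rcases hdeg with hdeg | hdeg
    · -- counting
      apply hdeg
      let A : Finset (K →+* L) := Finset.univ.filter (fun φ => f φ = 1)
      let B : Finset (K →+* L) := Finset.univ.filter (fun φ => f φ = 0)
      have hAB : A.card = B.card := by
        refine Finset.card_bij' (fun φ _ => δ • φ) (fun φ _ => δ⁻¹ • φ) ?_ ?_ ?_ ?_
        · intro φ hφ
          have h5 : f φ = 1 := (Finset.mem_filter.1 hφ).2
          refine Finset.mem_filter.2 ⟨Finset.mem_univ _, ?_⟩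
          rw [hflip, h5]
          decide
        · intro φ hφ
          have h5 : f φ = 0 := (Finset.mem_filter.1 hφ).2
          refine Finset.mem_filter.2 ⟨Finset.mem_univ _, ?_⟩
          have h6 := hflip (δ⁻¹ • φ)
          rw [smul_inv_smul, h5] at h6
          have : ∀ a : ZMod 2, 0 = a + 1 → a = 1 := by decide
          exact this _ h6
        · intro φ _
          exact inv_smul_smul _ _
        · intro φ _
          exact smul_inv_smul _ _
      have hsum : A.card + B.card = Fintype.card (K →+* L) := by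
        have h5 : B = Finset.univ.filter (fun φ => ¬ f φ = 1) := by
          refine Finset.filter_congr fun φ _ => ?_
          have : ∀ a : ZMod 2, a = 0 ↔ ¬ a = 1 := by decide
          exact this _
        rw [h5, Finset.card_filter_add_card_filter_not, Finset.card_univ]
      have hcard : Fintype.card (K →+* L) = finrank ℚ K := by
        rw [← card_emb_sub x, Nat.card_eq_fintype_card]
      -- the number of members of the half system with odd value
      let A' : Finset (K →+* L) := Φ.filter (fun φ => f φ = 1)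
      have hA' : A.card = 2 * A'.card := by
        have h5 := hΦ.sum_symm (fun φ => cbar_cbar φ) (fun φ => if f φ = 1 then 1 else 0)
          (fun φ => by
            change (if f (cbar φ) = 1 then 1 else 0) = (if f φ = 1 then 1 else 0)
            rw [hfc])
        rw [← Finset.card_filter, ← Finset.card_filter] at h5
        change A.card = A'.card + A'.card at h5
        omega
      have hodd : (A'.card : ZMod 2) = 1 := by
        rw [← hC, Finset.card_filter]
        push_cast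
        refine Finset.sum_congr rfl fun φ _ => ?_
        rcases h01 (f φ) with h5 | h5 <;> rw [h5] <;> decide
      have hodd' : A'.card % 2 = 1 := by
        have h5 : ((A'.card : ℕ) : ZMod 2) = ((1 : ℕ) : ZMod 2) := by
          rw [hodd]; rfl
        exact (ZMod.natCast_eq_natCast_iff' _ _ _).1 h5
      omega
    · -- the real quadratic field
      obtain ⟨T, f', hf', hmin⟩ := exists_factor x f
      have heq : ∀ φ φ' : K →+* L, f φ = f φ' → res T φ = res T φ' := by
        intro φ φ' h5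
        obtain ⟨σ, rfl⟩ := MulAction.exists_smul_eq (L ≃ₐ[ℚ] L) φ' φ
        refine hmin σ φ' fun g => ?_
        have h6 := h4' g (σ • φ') φ'
        rw [h5] at h6
        exact add_right_cancel h6
      apply hdeg T
      · rintro ⟨z, hz, hne⟩
        apply hne
        have h5 : res T (cbar x) = res T x := heq _ _ (hfc x)
        exact x.injective (RingHom.congr_fun h5 (⟨z, hz⟩ : T))
      · rw [← card_emb_sub (res T x), Nat.card_eq_fintype_card]
        have h5 : (Finset.univ : Finset (T →+* L)) = {res T x, res T y} := by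
          ext ψ
          simp only [Finset.mem_univ, Finset.mem_insert, Finset.mem_singleton, true_iff]
          obtain ⟨φ, rfl⟩ := res_surjective x T ψ
          have h6 := h3 1
          rw [one_smul, one_smul] at h6
          have : ∀ a b c : ZMod 2, c = b + 1 → (a = b ∨ a = c) := by decide
          rcases this (f φ) _ _ h6 with h7 | h7
          · exact Or.inl (heq _ _ h7)
          · exact Or.inr (heq _ _ h7)
        rw [← Finset.card_univ, h5, Finset.card_pair]
        intro h6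
        have h7 : f x = f y := by rw [hf', hf', h6]
        have h8 := h3 1
        rw [one_smul, one_smul, ← h7] at h8
        have : ∀ a : ZMod 2, ¬ a = a + 1 := by decide
        exact this _ h8

end

end Pool.Agent.J4.H95.PA
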