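import Mathlib
import Pool.Agent.J4.H95.PA.Cases

/-!
# Tate classes on powers: slopes dominated at a prime number by one or two pairs
-/

set_option linter.unusedSectionVars false
set_option linter.unusedVariables false

namespace Pool.Agent.J4.H95.PA

open NumberField Module Pool.Agent.H204R3.CM Pool.Agent.H977R3.WN Pool.Agent.W527
  Pool.Agent.H925R2 Pool.Agent.H485R3.Exact

noncomputable section

variable {K : Type} [Field K] [NumberField K] [IsCMField K] {Ω : Type} [Field Ω]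

/-- The conjugate of an embedding of a CM field. -/
def conj (τ : K →+* Ω) : K →+* Ω := τ.comp (IsCMField.complexConj K : K →+* K)

/-- `K` has no real element besides the rational numbers at which `x` and `y` agree. -/
def AgreeOnQ (x y : K →+* Ω) : Prop :=
  ∀ z : K, IsCMField.complexConj K z = z → x z = y z → z ∈ (algebraMap ℚ K).range

/-- `x` and `y` do not map any CM subfield of `K` to the same subfield. -/
def NoCommonImage (x y : K →+* Ω) : Prop :=
  ∀ T : IntermediateField ℚ K, ¬ IsTotallyReal T → x '' (T : Set K) ≠ y '' (T : Set K)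

/-- All values of `u` are divisible by `r`, except for those at `x`, `conj x`. -/
def OnePair (r : ℕ) (u : (K →+* Ω) → ℤ) (x : K →+* Ω) : Prop :=
  ¬ (r : ℤ) ∣ u x ∧ ∀ τ, τ ≠ x → τ ≠ conj x → (r : ℤ) ∣ u τ

/-- All values of `u` are divisible by `r`, except for those at `x`, `conj x`, `y`, `conj y`. -/
def TwoPairs (r : ℕ) (u : (K →+* Ω) → ℤ) (x y : K →+* Ω) : Prop :=
  y ≠ x ∧ y ≠ conj x ∧ ¬ (r : ℤ) ∣ u x ∧ ¬ (r : ℤ) ∣ u y ∧
    ∀ τ, τ ≠ x → τ ≠ conj x → τ ≠ y → τ ≠ conj y → (r : ℤ) ∣ u τ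

/-- All values of `u` are odd, except for those at `x`, `conj x`. -/
def AllButOne (u : (K →+* Ω) → ℤ) (x : K →+* Ω) : Prop :=
  Even (u x) ∧ ∀ τ, τ ≠ x → τ ≠ conj x → Odd (u τ)

/-- All values of `u` are odd, except for those at `x`, `conj x`, `y`, `conj y`. -/
def AllButTwo (u : (K →+* Ω) → ℤ) (x y : K →+* Ω) : Prop :=
  y ≠ x ∧ y ≠ conj x ∧ Even (u x) ∧ Even (u y) ∧
    ∀ τ, τ ≠ x → τ ≠ conj x → τ ≠ y → τ ≠ conj y → Odd (u τ)

/-- Embeddings in an algebraically closed field come from a normal extension. -/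
theorem exists_factor_emb {L : Type*} [Field L] [NumberField L] [IsGalois ℚ L] [CharZero Ω]
    [IsAlgClosed Ω] (φ₀ : K →+* L) (jp : L →+* Ω) (τ : K →+* Ω) :
    ∃ φ : K →+* L, jp.comp φ = τ := by
  let _ : Algebra K L := φ₀.toAlgebra
  let _ : Algebra K Ω := τ.toAlgebra
  have : Algebra.IsAlgebraic K L := by
    have _ : IsScalarTower ℚ K L := IsScalarTower.of_algebraMap_eq fun x => by
      rw [RingHom.algebraMap_toAlgebra, eq_ratCast, eq_ratCast, map_ratCast]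
    exact Algebra.IsAlgebraic.tower_top (K := ℚ) K
  let e : L →ₐ[K] Ω := IsAlgClosed.lift
  obtain ⟨g, hg⟩ := Pool.Agent.H485R3.exists_gal (RingHom.equivRatAlgHom L Ω jp)
    (RingHom.equivRatAlgHom L Ω (e : L →+* Ω))
  refine ⟨g • φ₀, RingHom.ext fun z => ?_⟩
  have h1 := hg (φ₀ z)
  have h2 : e (φ₀ z) = τ z := e.commutes z
  rw [← h2]
  exact h1.symm

theorem comp_cbar' {L : Type*} [Field L] (jp : L →+* Ω) (φ : K →+* L) :
    jp.comp (cbar φ) = conj (jp.comp φ) := rfl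

theorem comp_inj {L : Type*} [Field L] (jp : L →+* Ω) {φ ψ : K →+* L}
    (h : jp.comp φ = jp.comp ψ) : φ = ψ :=
  RingHom.ext fun z => jp.injective (RingHom.congr_fun h z)

variable {p : ℕ} [hp : Fact p.Prime] {m : ℕ} {π : K}

/-- The reduction of the theorem to functions on embeddings. -/
theorem generate_of_rel (hgen : IntermediateField.adjoin ℚ {π} = ⊤)
    (hweil : ∀ φ : K →+* ℂ, ‖φ π‖ ^ 2 = (p : ℝ) ^ m) {κ : ℚ} (hκ : κ ≠ 0)
    {u : (K →+* PadicAlgCl p) → ℤ}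
    (hu : ∀ τ : K →+* PadicAlgCl p, 2 * (- Real.logb p ‖τ π‖) - m = (κ : ℝ) * u τ)
    (hrel : ∀ (L : IntermediateField ℚ (AlgebraicClosure ℚ)) [NumberField L] [IsGalois ℚ L]
      (j : L →+* ℂ) (_ : ∀ ψ : K →+* ℂ, ∃ φ : K →+* L, j.comp φ = ψ) (jp : L →+* PadicAlgCl p)
      (κc : L ≃ₐ[ℚ] L) (_ : ∀ φ : K →+* L, κc • φ = cbar φ)
      (_ : ∀ φ : K →+* L, u (jp.comp (cbar φ)) = - u (jp.comp φ))
      (_ : ∀ τ : K →+* PadicAlgCl p, ∃ φ : K →+* L, jp.comp φ = τ)
      (c : (K →+* L) → ℤ), Rel (fun φ => u (jp.comp φ)) c → ∀ φ, c φ = 0) :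
    Norm.PairingsGenerate (I := Unit) (K := fun _ => K) p (fun _ => m) (fun _ => π) := by
  classical
  intro Ω _ _ _ V _ _ _ F hF n t s hs c hc φ hφ
  refine tate_of_free_finite p (fun _ : Unit => K) (fun _ => m) (fun _ => π) (fun _ => hgen)
    (fun _ => hweil) (fun _ => κ) (fun _ => hκ) (fun _ => u) (fun _ => hu) ?_ V F hF t s hs c
    hc φ hφ
  intro L _ _ j h' jp
  have h : ∀ ψ : K →+* ℂ, ∃ φ : K →+* L, j.comp φ = ψ := h' ()
  obtain ⟨κc, hκc⟩ := exists_lift j (starRingAut : ℂ ≃+* ℂ)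
  have hκc' : ∀ x, starRingEnd ℂ (j x) = j (κc x) := hκc
  have hκc'' : ∀ φ : K →+* L, κc • φ = cbar φ := by
    intro φ
    apply comp_injective j
    change j.comp (κc • φ) = j.comp (cbar φ)
    rw [comp_cbar]
    exact RingHom.ext fun x => (hκc' (φ x)).symm
  obtain ⟨φ₀, _⟩ := h (Classical.arbitrary _)
  intro c hc hrel' i φ
  refine hrel L j h jp κc hκc'' (fun φ => anti_of_slopes' hweil hκ hu (jp.comp φ))
    (exists_factor_emb φ₀ jp) (c i) ⟨hc i, fun g => ?_⟩ φ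
  have h1 := hrel' g
  rw [Fintype.sum_unique] at h1
  exact h1

/-- If all relations are divisible by `r`, there are none. -/
theorem zero_of_dvd {L : Type*} [Field L] [NumberField L] [IsGalois ℚ L] {w : (K →+* L) → ℤ}
    {r : ℕ} (hr : r.Prime) (h1 : ∀ c, Rel w c → ∀ φ, (r : ℤ) ∣ c φ) {c : (K →+* L) → ℤ}
    (hc : Rel w c) (φ : K →+* L) : c φ = 0 := by
  have key : ∀ k : ℕ, ∀ c : (K →+* L) → ℤ, Rel w c → (c φ).natAbs = k → c φ = 0 := by
    intro k
    induction k using Nat.strong_induction_on with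
    | _ k ih =>
      intro c hc hk
      choose c' hc' using h1 c hc
      have h2 : Rel w c' := by
        apply Rel.div (r : ℤ) (by exact_mod_cast hr.ne_zero)
        have h3 : (fun φ => (r : ℤ) * c' φ) = c := funext fun φ => (hc' φ).symm
        rwa [h3]
      by_contra h3
      have h4 : (c' φ).natAbs < k := by
        rw [← hk, hc', Int.natAbs_mul, Int.natAbs_natCast]
        have h5 : 0 < (c' φ).natAbs := by
          rw [Int.natAbs_pos]
          intro h6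
          apply h3
          rw [hc', h6, mul_zero]
        have := hr.two_le
        nlinarith
      apply h3
      rw [hc', ih _ h4 c' h2 rfl, mul_zero]
  exact key _ c hc rfl

theorem generate_of_one (hgen : IntermediateField.adjoin ℚ {π} = ⊤)
    (hweil : ∀ φ : K →+* ℂ, ‖φ π‖ ^ 2 = (p : ℝ) ^ m) {κ : ℚ} (hκ : κ ≠ 0)
    {u : (K →+* PadicAlgCl p) → ℤ}
    (hu : ∀ τ : K →+* PadicAlgCl p, 2 * (- Real.logb p ‖τ π‖) - m = (κ : ℝ) * u τ)
    {r : ℕ} (hr : r.Prime) {x : K →+* PadicAlgCl p} (hx : OnePair r u x) :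
    Norm.PairingsGenerate (I := Unit) (K := fun _ => K) p (fun _ => m) (fun _ => π) := by
  refine generate_of_rel hgen hweil hκ hu ?_
  intro L _ _ j h jp κc hκc hodd hsurj c hc φ
  obtain ⟨x', rfl⟩ := hsurj x
  refine zero_of_dvd hr (fun c hc φ => zero_of_one hκc r hr hodd (x := x') hx.1 ?_ hc φ) hc φ
  intro φ hφ
  refine hx.2 _ (fun h => hφ (Or.inl (comp_inj jp h))) (fun h => hφ (Or.inr ?_))
  exact comp_inj jp (h.trans (comp_cbar' jp x').symm)

theorem not_inPair {L : Type*} [Field L] [NumberField L] (jp : L →+* Ω) {x φ : K →+* L}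
    (h1 : jp.comp φ ≠ jp.comp x) (h2 : jp.comp φ ≠ conj (jp.comp x)) : ¬ InPair x φ := by
  rintro (h | h)
  · exact h1 (by rw [h])
  · exact h2 (by rw [h]; rfl)

theorem ne_of_not_inPair {L : Type*} [Field L] [NumberField L] (jp : L →+* Ω) {x φ : K →+* L}
    (h : ¬ InPair x φ) : jp.comp φ ≠ jp.comp x ∧ jp.comp φ ≠ conj (jp.comp x) :=
  ⟨fun h1 => h (Or.inl (comp_inj jp h1)),
    fun h1 => h (Or.inr (comp_inj jp (h1.trans (comp_cbar' jp x).symm)))⟩

theorem generate_of_two (hgen : IntermediateField.adjoin ℚ {π} = ⊤)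
    (hweil : ∀ φ : K →+* ℂ, ‖φ π‖ ^ 2 = (p : ℝ) ^ m) {κ : ℚ} (hκ : κ ≠ 0)
    {u : (K →+* PadicAlgCl p) → ℤ}
    (hu : ∀ τ : K →+* PadicAlgCl p, 2 * (- Real.logb p ‖τ π‖) - m = (κ : ℝ) * u τ)
    {r : ℕ} (hr : r.Prime) (hr2 : r ≠ 2) {x y : K →+* PadicAlgCl p} (hxy : TwoPairs r u x y)
    (him : NoCommonImage x y) :
    Norm.PairingsGenerate (I := Unit) (K := fun _ => K) p (fun _ => m) (fun _ => π) := by
  refine generate_of_rel hgen hweil hκ hu ?_
  intro L _ _ j h jp κc hκc hodd hsurj c hc φ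
  obtain ⟨x', rfl⟩ := hsurj x
  obtain ⟨y', rfl⟩ := hsurj y
  obtain ⟨e1, e2, e3, e4, e5⟩ := hxy
  refine zero_of_dvd hr (fun c hc φ => zero_of_two hκc r hr hr2 hodd (x := x') (y := y')
    (not_inPair jp e1 e2) e3 e4 ?_ ?_ hc φ) hc φ
  · intro φ h1 h2
    obtain ⟨h3, h4⟩ := ne_of_not_inPair jp h1
    obtain ⟨h5, h6⟩ := ne_of_not_inPair jp h2
    exact e5 _ h3 h4 h5 h6
  · intro T hT
    by_contra hcon
    push Not at hcon
    refine him T ((nonReal_iff T).1 hT) ?_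
    have h1 : jp.comp y' '' (T : Set K) ⊆ jp.comp x' '' (T : Set K) := by
      rintro _ ⟨z, hz, rfl⟩
      obtain ⟨z', hz', h2⟩ := hcon z hz
      exact ⟨z', hz', by rw [RingHom.comp_apply, RingHom.comp_apply, h2]⟩
    -- equality by comparison of degrees
    let X : T →ₐ[ℚ] PadicAlgCl p := RingHom.equivRatAlgHom T _ (res T (jp.comp x'))
    let Y : T →ₐ[ℚ] PadicAlgCl p := RingHom.equivRatAlgHom T _ (res T (jp.comp y'))
    have h3 : Y.fieldRange ≤ X.fieldRange := by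
      rintro _ ⟨z, rfl⟩
      obtain ⟨z', hz', h4⟩ := h1 ⟨z, z.2, rfl⟩
      exact ⟨⟨z', hz'⟩, h4⟩
    have h5 : finrank ℚ X.fieldRange = finrank ℚ T :=
      (AlgEquiv.ofInjectiveField X).toLinearEquiv.finrank_eq.symm
    have h6 : finrank ℚ Y.fieldRange = finrank ℚ T :=
      (AlgEquiv.ofInjectiveField Y).toLinearEquiv.finrank_eq.symm
    have _ : FiniteDimensional ℚ X.fieldRange :=
      Module.Finite.equiv (AlgEquiv.ofInjectiveField X).toLinearEquiv
    have h7 : Y.fieldRange = X.fieldRange :=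
      IntermediateField.eq_of_le_of_finrank_eq h3 (h6.trans h5.symm)
    have h8 : ∀ x : K →+* PadicAlgCl p,
        x '' (T : Set K) = ((RingHom.equivRatAlgHom T _ (res T x) :
          T →ₐ[ℚ] PadicAlgCl p).fieldRange : Set (PadicAlgCl p)) := by
      intro x
      ext t
      constructor
      · rintro ⟨z, hz, rfl⟩
        exact ⟨⟨z, hz⟩, rfl⟩
      · rintro ⟨z, rfl⟩
        exact ⟨z, z.2, rfl⟩
    rw [h8, h8]
    exact congrArg _ h7.symm

/-- The functions on the embeddings in `ℚ_p` covered by the second part of the theorem. -/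
def Sparse (r : ℕ) (u : (K →+* Ω) → ℤ) : Prop :=
  (∃ x y, TwoPairs r u x y ∧ AgreeOnQ x y) ∨
    (∃ x, AllButOne u x) ∨
    (∃ x y, AllButTwo u x y ∧ AgreeOnQ x y ∧ (finrank ℚ K % 8 ≠ 4 ∨
      ∀ T : IntermediateField ℚ K, IsTotallyReal T → finrank ℚ T ≠ 2))

theorem apart_of_agree {L : Type*} [Field L] [NumberField L] (jp : L →+* Ω) {x y : K →+* L}
    (h : AgreeOnQ (jp.comp x) (jp.comp y)) : Apart x y := by
  intro z hz hxy
  exact h z hz (by rw [RingHom.comp_apply, RingHom.comp_apply, hxy])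

theorem zeroFree_of_sparse {L : Type*} [Field L] [NumberField L] [IsGalois ℚ L]
    {κc : L ≃ₐ[ℚ] L} (hκc : ∀ φ : K →+* L, κc • φ = cbar φ) {r : ℕ} (hr : r.Prime)
    {u : (K →+* Ω) → ℤ} (hu : Sparse r u) (jp : L →+* Ω)
    (hodd : ∀ φ : K →+* L, u (jp.comp (cbar φ)) = - u (jp.comp φ))
    (hsurj : ∀ τ : K →+* Ω, ∃ φ : K →+* L, jp.comp φ = τ) :
    ZeroFree (fun φ : K →+* L => u (jp.comp φ)) := by
  have hev : ∀ n : ℤ, Even n → (2 : ℤ) ∣ n := fun n h => h.two_dvd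
  have hod : ∀ n : ℤ, Odd n → ¬ (2 : ℤ) ∣ n := fun n h h' =>
    (Int.not_even_iff_odd.2 h) (even_iff_two_dvd.2 h')
  rcases hu with ⟨x, y, ⟨e1, e2, e3, e4, e5⟩, hap⟩ | ⟨x, e1, e2⟩ |
    ⟨x, y, ⟨e1, e2, e3, e4, e5⟩, hap, hdeg⟩
  · obtain ⟨x', rfl⟩ := hsurj x
    obtain ⟨y', rfl⟩ := hsurj y
    refine zeroFree_of_two hκc r hr hodd (x := x') (y := y') (not_inPair jp e1 e2)
      (apart_of_agree jp hap) e3 e4 ?_
    intro φ h1 h2
    obtain ⟨h3, h4⟩ := ne_of_not_inPair jp h1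
    obtain ⟨h5, h6⟩ := ne_of_not_inPair jp h2
    exact e5 _ h3 h4 h5 h6
  · obtain ⟨x', rfl⟩ := hsurj x
    refine zeroFree_of_even_one hκc hodd (x := x') (hev _ e1) ?_
    intro φ h1
    obtain ⟨h3, h4⟩ := ne_of_not_inPair jp h1
    exact hod _ (e2 _ h3 h4)
  · obtain ⟨x', rfl⟩ := hsurj x
    obtain ⟨y', rfl⟩ := hsurj y
    refine zeroFree_of_even_two hκc hodd (x := x') (y := y') (not_inPair jp e1 e2)
      (apart_of_agree jp hap) (hev _ e3) (hev _ e4) ?_ ?_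
    · intro φ h1 h2
      obtain ⟨h3, h4⟩ := ne_of_not_inPair jp h1
      obtain ⟨h5, h6⟩ := ne_of_not_inPair jp h2
      exact hod _ (e5 _ h3 h4 h5 h6)
    · rcases hdeg with hdeg | hdeg
      · exact Or.inl hdeg
      · right
        intro T hT
        apply hdeg
        by_contra h1
        exact hT ((nonReal_iff T).2 h1)

theorem generate_iff_of_sparse (hint : IsIntegral ℤ π)
    (hgen : IntermediateField.adjoin ℚ {π} = ⊤)
    (hweil : ∀ φ : K →+* ℂ, ‖φ π‖ ^ 2 = (p : ℝ) ^ m) {κ : ℚ} (hκ : κ ≠ 0)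
    {u : (K →+* PadicAlgCl p) → ℤ}
    (hu : ∀ τ : K →+* PadicAlgCl p, 2 * (- Real.logb p ‖τ π‖) - m = (κ : ℝ) * u τ)
    {r : ℕ} (hr : r.Prime) (hsp : Sparse r u) :
    Norm.PairingsGenerate (I := Unit) (K := fun _ => K) p (fun _ => m) (fun _ => π) ↔
      ∀ E : IntermediateField ℚ K, finrank ℚ E = 2 → ¬ IsTotallyReal E → ∀ n : ℕ, 0 < n →
        Norm.unitNorm p m E π ^ n ≠ 1 := by
  refine ⟨fun h E _ hE n hn => norm_ne_of_generate hgen hweil h E hE n hn, fun hnn => ?_⟩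
  refine generate_of_rel hgen hweil hκ hu ?_
  intro L _ _ j h jp κc hκc hodd hsurj c hc φ
  have hzf := zeroFree_of_sparse hκc hr hsp jp hodd hsurj
  by_contra h0
  obtain ⟨T, hT, hdeg, htr⟩ := quad_of_zeroFree hκc hodd hzf hc φ h0
  obtain ⟨n, hn, h1⟩ := root_of_tr_zero j h hint hweil hu jp T htr
  exact hnn T hdeg ((nonReal_iff T).1 hT) n hn h1

end

end Pool.Agent.J4.H95.PA
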