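import Mathlib
import Pool.Agent.J4.H95.PA.Main

/-!
# Independent embeddings
-/

set_option linter.unusedSectionVars false
set_option linter.unusedVariables false

namespace Pool.Agent.J4.H95.PA

open NumberField Module Pool.Agent.H204R3.CM Pool.Agent.H977R3.WN Pool.Agent.W527
  Pool.Agent.H925R2 Pool.Agent.H485R3.Exact

noncomputable section

section level

variable {K L : Type*} [Field K] [NumberField K] [IsCMField K] [Field L] [NumberField L]
  [IsGalois ℚ L]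

/-- If the values of `f` at translates of `x` are determined by the restrictions of the
translates of some other embeddings, the image of `T` under `x` lies in the compositum of
the images under these embeddings. -/
theorem mem_adjoin_of_factor {X : Type*} (f : (K →+* L) → X) (T : IntermediateField ℚ K)
    (hmin : ∀ (σ : L ≃ₐ[ℚ] L) (φ : K →+* L), (∀ g : L ≃ₐ[ℚ] L, f (g • σ • φ) = f (g • φ)) →
      res T (σ • φ) = res T φ)
    (S : Set (K →+* L)) (x : K →+* L)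
    (h : ∀ σ : L ≃ₐ[ℚ] L, (∀ y ∈ S, res T (σ • y) = res T y) →
      ∀ g : L ≃ₐ[ℚ] L, f (g • σ • x) = f (g • x)) (z : K) (hz : z ∈ T) :
    x z ∈ IntermediateField.adjoin ℚ {t | ∃ y ∈ S, ∃ w ∈ T, t = y w} := by
  set E := IntermediateField.adjoin ℚ {t | ∃ y ∈ S, ∃ w ∈ T, t = y w} with hE
  rw [← IsGalois.fixedField_fixingSubgroup E, IntermediateField.mem_fixedField_iff]
  intro σ hσ
  rw [IntermediateField.mem_fixingSubgroup_iff] at hσ
  have h1 : ∀ y ∈ S, res T (σ • y) = res T y := by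
    intro y hy
    ext w
    exact hσ (y w) (IntermediateField.subset_adjoin _ _ ⟨y, hy, w, w.2, rfl⟩)
  have h2 := hmin σ x (h σ h1)
  exact RingHom.congr_fun h2 (⟨z, hz⟩ : T)

/-- Sums over half systems of even functions agree. -/
theorem IsHalf.sum_eq {R : Type*} [Fintype R] {inv : R → R} (hinv : ∀ x, inv (inv x) = x)
    {Φ Ψ : Finset R} (hΦ : IsHalf inv Φ) (hΨ : IsHalf inv Ψ) {M : Type*} [AddCommMonoid M]
    (F : R → M) (hF : ∀ x, F (inv x) = F x) : ∑ x ∈ Φ, F x = ∑ x ∈ Ψ, F x := by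
  classical
  refine Finset.sum_nbij' (fun x => if x ∈ Ψ then x else inv x)
    (fun x => if x ∈ Φ then x else inv x) ?_ ?_ ?_ ?_ ?_
  · intro x hx
    by_cases h : x ∈ Ψ
    · rw [if_pos h]; exact h
    · rw [if_neg h]
      rw [hΨ x, not_not] at h
      exact h
  · intro x hx
    by_cases h : x ∈ Φ
    · rw [if_pos h]; exact h
    · rw [if_neg h]
      rw [hΦ x, not_not] at h
      exact h
  · intro x hx
    by_cases h : x ∈ Ψ
    · rw [if_pos h, if_pos hx]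
    · rw [if_neg h, if_neg ((hΦ x).1 hx), hinv]
  · intro x hx
    by_cases h : x ∈ Φ
    · rw [if_pos h, if_pos hx]
    · rw [if_neg h, if_neg ((hΨ x).1 hx), hinv]
  · intro x hx
    by_cases h : x ∈ Ψ
    · rw [if_pos h]
    · rw [if_neg h, hF]

/-- Some element of `S` maps some element of `T` outside the compositum of the images of `T` under
the other elements of `S`. -/
def Indep (S : Set (K →+* L)) (T : IntermediateField ℚ K) : Prop :=
  ∃ x ∈ S, ∃ z ∈ T, x z ∉ IntermediateField.adjoin ℚ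
    {t | ∃ y ∈ S, y ≠ x ∧ y ≠ cbar x ∧ ∃ w ∈ T, t = y w}

theorem nonReal_or {κ : L ≃ₐ[ℚ] L} (hκ : ∀ φ : K →+* L, κ • φ = cbar φ)
    (T : IntermediateField ℚ K) (hT : ¬ NonReal T) (φ : K →+* L) : res T (cbar φ) = res T φ := by
  unfold NonReal at hT
  push Not at hT
  ext x
  rw [res_apply, res_apply, cbar_apply, hT x x.2]

/-- **Odd prime number.** -/
theorem dvd_of_indep {κ : L ≃ₐ[ℚ] L} (hκ : ∀ φ : K →+* L, κ • φ = cbar φ) (r : ℕ)
    (hr : r.Prime) (hr2 : r ≠ 2)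
    {w : (K →+* L) → ℤ} (hw : ∀ φ, w (cbar φ) = - w φ)
    (hind : ∀ T : IntermediateField ℚ K, NonReal T → Indep {φ : K →+* L | ¬ (r : ℤ) ∣ w φ} T)
    {c : (K →+* L) → ℤ} (hc : Rel w c) (φ : K →+* L) : (r : ℤ) ∣ c φ := by
  classical
  have _ : Fact r.Prime := ⟨hr⟩
  have hz : ∀ n : ℤ, ((n : ZMod r) = 0) ↔ (r : ℤ) ∣ n :=
    fun n => ZMod.intCast_zmod_eq_zero_iff_dvd n r
  have h2 : (2 : ZMod r) ≠ 0 := by
    intro h5
    have h6 : ((2 : ℕ) : ZMod r) = 0 := by exact_mod_cast h5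
    rw [ZMod.natCast_eq_zero_iff] at h6
    exact hr2 ((Nat.prime_dvd_prime_iff_eq Fact.out Nat.prime_two).1 h6)
  have hne : ∀ φ : K →+* L, cbar φ ≠ φ := cbar_ne' hκ
  by_contra hcon
  let f : (K →+* L) → ZMod r := fun φ => ((c φ : ℤ) : ZMod r)
  have hfc : ∀ φ, f (cbar φ) = - f φ := by
    intro φ
    change ((c (cbar φ) : ℤ) : ZMod r) = - ((c φ : ℤ) : ZMod r)
    rw [hc.1]; push_cast; ring
  obtain ⟨T, f', hf', hmin⟩ := exists_factor φ f
  have hT : NonReal T := by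
    by_contra hreal
    have h3 : f (cbar φ) = f φ := by rw [hf', hf', nonReal_or hκ T hreal]
    rw [hfc] at h3
    have h4 : (2 : ZMod r) * f φ = 0 := by linear_combination -h3
    exact hcon ((hz _).1 ((mul_eq_zero.1 h4).resolve_left h2))
  obtain ⟨x, hx, z, hz1, hz2⟩ := hind T hT
  apply hz2
  have hS : {t | ∃ y ∈ {φ : K →+* L | ¬ (r : ℤ) ∣ w φ}, y ≠ x ∧ y ≠ cbar x ∧
      ∃ w ∈ T, t = y w} = {t | ∃ y ∈ {φ : K →+* L | ¬ (r : ℤ) ∣ w φ ∧ φ ≠ x ∧ φ ≠ cbar x},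
        ∃ w ∈ T, t = y w} := by
    ext t
    constructor
    · rintro ⟨y, h1, h2, h3, h4⟩
      exact ⟨y, ⟨h1, h2, h3⟩, h4⟩
    · rintro ⟨y, ⟨h1, h2, h3⟩, h4⟩
      exact ⟨y, h1, h2, h3, h4⟩
  rw [hS]
  refine mem_adjoin_of_factor f T hmin _ x ?_ z hz1
  intro σ hσ
  -- the relation at `g`
  have hrel : ∀ g : L ≃ₐ[ℚ] L, ∑ ψ : K →+* L, f (g • ψ) * ((w ψ : ℤ) : ZMod r) = 0 := by
    intro g
    have h3 := congrArg (fun n : ℤ => (n : ZMod r)) (hc.2 g⁻¹)
    push_cast at h3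
    rw [← h3]
    refine Fintype.sum_equiv (MulAction.toPerm g) _ _ fun ψ => ?_
    rw [MulAction.toPerm_apply, inv_smul_smul]
  have hsplit : ∀ g : L ≃ₐ[ℚ] L, 2 * (f (g • x) * ((w x : ℤ) : ZMod r)) +
      ∑ ψ ∈ (Finset.univ.erase x).erase (cbar x), f (g • ψ) * ((w ψ : ℤ) : ZMod r) = 0 := by
    intro g
    have h3 := hrel g
    rw [← Finset.add_sum_erase _ _ (Finset.mem_univ x),
      ← Finset.add_sum_erase _ _ (Finset.mem_erase.2 ⟨hne x, Finset.mem_univ (cbar x)⟩)] at h3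
    have h4 : f (g • cbar x) * ((w (cbar x) : ℤ) : ZMod r) =
        f (g • x) * ((w x : ℤ) : ZMod r) := by
      rw [smul_cbar, hfc, hw]
      push_cast
      ring
    rw [h4] at h3
    rw [← h3]
    ring
  intro g
  have h3 := hsplit (g * σ)
  have h4 := hsplit g
  have h5 : ∑ ψ ∈ (Finset.univ.erase x).erase (cbar x), f ((g * σ) • ψ) * ((w ψ : ℤ) : ZMod r) =
      ∑ ψ ∈ (Finset.univ.erase x).erase (cbar x), f (g • ψ) * ((w ψ : ℤ) : ZMod r) := by
    refine Finset.sum_congr rfl fun ψ hψ => ?_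
    rw [Finset.mem_erase, Finset.mem_erase] at hψ
    by_cases h6 : (r : ℤ) ∣ w ψ
    · rw [(hz _).2 h6, mul_zero, mul_zero]
    · have h7 := hσ ψ ⟨h6, hψ.2.1, hψ.1⟩
      rw [mul_smul, hf', hf' (g • ψ), res_smul T g (σ • ψ), h7, ← res_smul]
  rw [h5] at h3
  have h6 : (2 * ((w x : ℤ) : ZMod r)) * (f ((g * σ) • x) - f (g • x)) = 0 := by
    linear_combination h3 - h4
  have h7 : (2 * ((w x : ℤ) : ZMod r)) ≠ 0 := mul_ne_zero h2 (fun h => hx ((hz _).1 h))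
  have h8 := (mul_eq_zero.1 h6).resolve_left h7
  rw [mul_smul] at h8
  exact sub_eq_zero.1 h8

/-- **The prime number two.**  Here `S` is the set of the embeddings at which `w` is odd, or the set
of those at which `w` is even. -/
theorem zeroFree_of_indep {κ : L ≃ₐ[ℚ] L} (hκ : ∀ φ : K →+* L, κ • φ = cbar φ)
    {w : (K →+* L) → ℤ} (hw : ∀ φ, w (cbar φ) = - w φ) (S : Set (K →+* L))
    (hS : S = {φ : K →+* L | ¬ (2 : ℤ) ∣ w φ} ∨ S = {φ : K →+* L | (2 : ℤ) ∣ w φ})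
    (hind : ∀ T : IntermediateField ℚ K, ¬ NonReal T → T ≠ ⊥ → Indep S T) : ZeroFree w := by
  classical
  refine zeroFree_of_mod 2 one_lt_two ?_
  rintro c hc ⟨φ₁, h1⟩ φ
  obtain ⟨Φ, hΦ⟩ := exists_isHalf (inv := fun φ : K →+* L => cbar φ) (fun φ => cbar_cbar φ)
    (fun φ => cbar_ne' hκ φ)
  set f : (K →+* L) → ZMod 2 := fun φ => ((c φ : ℤ) : ZMod 2) with hf
  have hfc : ∀ φ, f (cbar φ) = f φ := fun φ => cast_cbar hc φ
  have hSc : ∀ φ, cbar φ ∈ S ↔ φ ∈ S := by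
    intro φ
    rcases hS with rfl | rfl
    · change ¬ (2 : ℤ) ∣ w (cbar φ) ↔ ¬ (2 : ℤ) ∣ w φ
      rw [hw, dvd_neg]
    · change (2 : ℤ) ∣ w (cbar φ) ↔ (2 : ℤ) ∣ w φ
      rw [hw, dvd_neg]
  -- the sum over `S` is constant
  have hsum : ∃ C : ZMod 2, ∀ g : L ≃ₐ[ℚ] L, ∑ ψ ∈ Φ with ψ ∈ S, f (g • ψ) = C := by
    have hmove : ∀ g : L ≃ₐ[ℚ] L, ∑ ψ ∈ Φ with ψ ∈ S, f (g • ψ) =
        ∑ ψ ∈ Φ with g⁻¹ • ψ ∈ S, f ψ := by
      intro g
      have hΨ : IsHalf (fun φ : K →+* L => cbar φ) (Φ.map (MulAction.toPerm g⁻¹).toEmbedding) := by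
        intro φ
        have h3 : ∀ φ : K →+* L, φ ∈ Φ.map (MulAction.toPerm g⁻¹).toEmbedding ↔ g • φ ∈ Φ := by
          intro φ
          rw [Finset.mem_map_equiv]
          have h4 : (MulAction.toPerm g⁻¹ : Equiv.Perm (K →+* L)).symm φ = g • φ := by
            rw [Equiv.symm_apply_eq, MulAction.toPerm_apply, inv_smul_smul]
          rw [h4]
        rw [h3, h3, hΦ (g • φ)]
        rfl
      rw [Finset.sum_filter, Finset.sum_filter,
        IsHalf.sum_eq (fun φ => cbar_cbar φ) hΦ hΨ (fun ψ => if ψ ∈ S then f (g • ψ) else 0) (by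
          intro ψ
          change (if cbar ψ ∈ S then f (g • cbar ψ) else 0) = (if ψ ∈ S then f (g • ψ) else 0)
          rw [smul_cbar, hfc]
          simp only [hSc])]
      rw [Finset.sum_map]
      refine Finset.sum_congr rfl fun ψ _ => ?_
      change (if g⁻¹ • ψ ∈ S then f (g • g⁻¹ • ψ) else 0) = _
      rw [smul_inv_smul]
    rcases hS with h3 | h3
    · refine ⟨0, fun g => ?_⟩
      rw [hmove]
      have h4 := rel_even hκ hw hc hΦ g
      have h5 := Finset.sum_filter_add_sum_filter_not Φ (fun φ => (2 : ℤ) ∣ w (g⁻¹ • φ)) f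
      change ∑ φ ∈ Φ, f φ = ∑ φ ∈ Φ with (2 : ℤ) ∣ w (g⁻¹ • φ), f φ at h4
      rw [h4] at h5
      rw [h3]
      have h6 := add_eq_left.1 h5
      convert h6 using 2
      ext ψ
      simp only [Finset.mem_filter, Set.mem_setOf_eq]
    · refine ⟨∑ φ ∈ Φ, f φ, fun g => ?_⟩
      rw [hmove, h3]
      have h6 := (rel_even hκ hw hc hΦ g).symm
      convert h6 using 2
      ext ψ
      simp only [Finset.mem_filter, Set.mem_setOf_eq]
  obtain ⟨C, hC⟩ := hsum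
  obtain ⟨T, f', hf', hmin⟩ := exists_factor φ f
  have hTr : ¬ NonReal T := by
    rintro ⟨z, hz, hne⟩
    apply hne
    have h3 : res T (κ • φ) = res T φ := by
      refine hmin κ φ fun g => ?_
      rw [hκ, smul_cbar, hfc]
    rw [hκ] at h3
    exact φ.injective (RingHom.congr_fun h3 (⟨z, hz⟩ : T))
  by_cases hT : T = ⊥
  · -- the function is constant
    have h3 : f φ = f φ₁ := by
      rw [hf', hf']
      congr 1
      ext z
      obtain ⟨z, hz⟩ := z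
      rw [hT, IntermediateField.mem_bot] at hz
      obtain ⟨q, rfl⟩ := hz
      rw [res_apply, res_apply]
      change φ (algebraMap ℚ K q) = φ₁ (algebraMap ℚ K q)
      simp
    refine (ZMod.intCast_zmod_eq_zero_iff_dvd _ 2).1 ?_
    change f φ = 0
    rw [h3]
    exact (ZMod.intCast_zmod_eq_zero_iff_dvd _ 2).2 h1
  exfalso
  obtain ⟨x, hx, z, hz1, hz2⟩ := hind T hTr hT
  apply hz2
  have hS' : {t | ∃ y ∈ S, y ≠ x ∧ y ≠ cbar x ∧ ∃ w ∈ T, t = y w} =
      {t | ∃ y ∈ {φ : K →+* L | φ ∈ S ∧ φ ≠ x ∧ φ ≠ cbar x}, ∃ w ∈ T, t = y w} := by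
    ext t
    constructor
    · rintro ⟨y, h1, h2, h3, h4⟩
      exact ⟨y, ⟨h1, h2, h3⟩, h4⟩
    · rintro ⟨y, ⟨h1, h2, h3⟩, h4⟩
      exact ⟨y, h1, h2, h3, h4⟩
  rw [hS']
  refine mem_adjoin_of_factor f T hmin _ x ?_ z hz1
  intro σ hσ g
  have hne : ∀ φ : K →+* L, cbar φ ≠ φ := cbar_ne' hκ
  have hsplit : ∀ g : L ≃ₐ[ℚ] L, ∑ ψ ∈ Φ with ψ ∈ S, f (g • ψ) =
      f (g • x) + ∑ ψ ∈ Φ with (ψ ∈ S ∧ ψ ≠ x ∧ ψ ≠ cbar x), f (g • ψ) := by
    intro g
    obtain ⟨x', hx', hx1, hx2⟩ : ∃ x' ∈ Φ, (x' = x ∨ x' = cbar x) ∧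
        ∀ ψ ∈ Φ, ψ = x ∨ ψ = cbar x → ψ = x' := by
      by_cases hxΦ : x ∈ Φ
      · refine ⟨x, hxΦ, Or.inl rfl, ?_⟩
        rintro ψ hψ (h3 | h3)
        · exact h3
        · rw [h3] at hψ
          exact absurd hψ ((hΦ x).1 hxΦ)
      · have h4 : cbar x ∈ Φ := by
          have h5 := hxΦ
          rw [hΦ x, not_not] at h5
          exact h5
        refine ⟨cbar x, h4, Or.inr rfl, ?_⟩
        rintro ψ hψ (h3 | h3)
        · rw [h3] at hψ
          exact absurd hψ hxΦ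
        · exact h3
    have hx'S : x' ∈ S := by
      rcases hx1 with h3 | h3
      · rw [h3]; exact hx
      · rw [h3, hSc]; exact hx
    rw [← Finset.add_sum_erase _ _ (Finset.mem_filter.2 ⟨hx', hx'S⟩)]
    congr 1
    · rcases hx1 with h3 | h3
      · rw [h3]
      · rw [h3, smul_cbar, hfc]
    · refine Finset.sum_congr ?_ fun _ _ => rfl
      ext ψ
      rw [Finset.mem_erase, Finset.mem_filter, Finset.mem_filter]
      constructor
      · rintro ⟨h3, h4, h5⟩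
        exact ⟨h4, h5, fun h6 => h3 (hx2 ψ h4 (Or.inl h6)), fun h6 => h3 (hx2 ψ h4 (Or.inr h6))⟩
      · rintro ⟨h3, h4, h5, h6⟩
        refine ⟨fun h7 => ?_, h3, h4⟩
        rcases hx1 with h8 | h8
        · exact h5 (h7.trans h8)
        · exact h6 (h7.trans h8)
  have h3 := hC (g * σ)
  have h4 := hC g
  rw [hsplit] at h3 h4
  have h5 : ∑ ψ ∈ Φ with (ψ ∈ S ∧ ψ ≠ x ∧ ψ ≠ cbar x), f ((g * σ) • ψ) =
      ∑ ψ ∈ Φ with (ψ ∈ S ∧ ψ ≠ x ∧ ψ ≠ cbar x), f (g • ψ) := by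
    refine Finset.sum_congr rfl fun ψ hψ => ?_
    have h7 := hσ ψ (Finset.mem_filter.1 hψ).2
    rw [mul_smul, hf', hf' (g • ψ), res_smul T g (σ • ψ), h7, ← res_smul]
  rw [h5, ← h4] at h3
  have h6 := add_right_cancel h3
  rw [mul_smul] at h6
  exact h6

end level

variable {K : Type} [Field K] [NumberField K] [IsCMField K] {Ω : Type} [Field Ω] [CharZero Ω]

/-- Some element of `S` maps some element of `T` outside the compositum of the images of `T` under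
the other elements of `S` (other than its conjugate). -/
def Independent (S : Set (K →+* Ω)) (T : IntermediateField ℚ K) : Prop :=
  ∃ x ∈ S, ∃ z ∈ T, x z ∉ IntermediateField.adjoin ℚ
    {t | ∃ y ∈ S, y ≠ x ∧ y ≠ conj x ∧ ∃ w ∈ T, t = y w}

theorem indep_of {L : Type*} [Field L] [NumberField L] (jp : L →+* Ω)
    (hsurj : ∀ τ : K →+* Ω, ∃ φ : K →+* L, jp.comp φ = τ) {S : Set (K →+* Ω)}
    {T : IntermediateField ℚ K} (h : Independent S T) :
    Indep {φ : K →+* L | jp.comp φ ∈ S} T := by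
  obtain ⟨x, hx, z, hz, hn⟩ := h
  obtain ⟨x', rfl⟩ := hsurj x
  refine ⟨x', hx, z, hz, fun hcon => hn ?_⟩
  let J : L →ₐ[ℚ] Ω := RingHom.equivRatAlgHom L Ω jp
  have h1 : J (x' z) ∈ (IntermediateField.adjoin ℚ
    {t | ∃ y ∈ {φ : K →+* L | jp.comp φ ∈ S}, y ≠ x' ∧ y ≠ cbar x' ∧
      ∃ w ∈ T, t = y w}).map J := ⟨_, hcon, rfl⟩
  rw [IntermediateField.adjoin_map] at h1
  refine IntermediateField.adjoin.mono ℚ _ _ ?_ h1
  rintro _ ⟨_, ⟨y, hy1, hy2, hy3, w, hw, rfl⟩, rfl⟩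
  refine ⟨jp.comp y, hy1, fun h => hy2 (comp_inj jp h), fun h => hy3 (comp_inj jp h), w, hw, rfl⟩

end

end Pool.Agent.J4.H95.PA
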