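import Mathlib
import Pool.Agent.J4.H95.PA.Indep

/-!
# Families of CM fields
-/

set_option linter.unusedSectionVars false
set_option linter.unusedVariables false

namespace Pool.Agent.J4.H95.PA

open NumberField Module Pool.Agent.H204R3.CM Pool.Agent.H977R3.WN Pool.Agent.W527
  Pool.Agent.H925R2 Pool.Agent.H485R3.Exact

noncomputable section

theorem mem_adjoin_of_fix {K L : Type*} [Field K] [NumberField K] [Field L] [NumberField L]
    [IsGalois ℚ L] {X : Type*} (f : (K →+* L) → X) (T : IntermediateField ℚ K)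
    (hmin : ∀ (σ : L ≃ₐ[ℚ] L) (φ : K →+* L), (∀ g : L ≃ₐ[ℚ] L, f (g • σ • φ) = f (g • φ)) →
      res T (σ • φ) = res T φ) (A : Set L) (x : K →+* L)
    (h : ∀ σ : L ≃ₐ[ℚ] L, (∀ t ∈ A, σ t = t) → ∀ g : L ≃ₐ[ℚ] L, f (g • σ • x) = f (g • x))
    (z : K) (hz : z ∈ T) : x z ∈ IntermediateField.adjoin ℚ A := by
  set E := IntermediateField.adjoin ℚ A with hE
  rw [← IsGalois.fixedField_fixingSubgroup E, IntermediateField.mem_fixedField_iff]
  intro σ hσ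
  rw [IntermediateField.mem_fixingSubgroup_iff] at hσ
  have h2 := hmin σ x (h σ fun t ht => hσ t (IntermediateField.subset_adjoin _ _ ht))
  exact RingHom.congr_fun h2 (⟨z, hz⟩ : T)

section level

variable {I : Type*} [Fintype I] {K : I → Type*} [∀ i, Field (K i)] [∀ i, NumberField (K i)]
  [∀ i, IsCMField (K i)] {L : Type*} [Field L] [NumberField L] [IsGalois ℚ L]

/-- Relations in families. -/
def RelF (w c : ∀ i, (K i →+* L) → ℤ) : Prop :=
  (∀ i φ, c i (cbar φ) = - c i φ) ∧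
    ∀ g : L ≃ₐ[ℚ] L, ∑ i, ∑ φ : K i →+* L, c i φ * w i (g • φ) = 0

/-- The family version of independence. -/
def IndepF (S : ∀ i, Set (K i →+* L)) (T : ∀ i, IntermediateField ℚ (K i)) : Prop :=
  ∃ i, ∃ x ∈ S i, ∃ z ∈ T i, x z ∉ IntermediateField.adjoin ℚ
    {t | ∃ j, ∃ y ∈ S j, (⟨j, y⟩ : Σ j, (K j →+* L)) ≠ ⟨i, x⟩ ∧
      (⟨j, y⟩ : Σ j, (K j →+* L)) ≠ ⟨i, cbar x⟩ ∧ ∃ w ∈ T j, t = y w}

theorem dvd_of_indepF {κ : L ≃ₐ[ℚ] L} (hκ : ∀ i, ∀ φ : K i →+* L, κ • φ = cbar φ) (r : ℕ)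
    (hr : r.Prime) (hr2 : r ≠ 2) (hemb : ∀ i, Nonempty (K i →+* L))
    {w : ∀ i, (K i →+* L) → ℤ} (hw : ∀ i φ, w i (cbar φ) = - w i φ)
    (hind : ∀ T : ∀ i, IntermediateField ℚ (K i), (∀ i, T i = ⊥ ∨ NonReal (T i)) →
      (∃ i, NonReal (T i)) → IndepF (fun i => {φ : K i →+* L | ¬ (r : ℤ) ∣ w i φ}) T)
    {c : ∀ i, (K i →+* L) → ℤ} (hc : RelF w c) (i₀ : I) (φ₀ : K i₀ →+* L) :
    (r : ℤ) ∣ c i₀ φ₀ := by
  classical
  have _ : Fact r.Prime := ⟨hr⟩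
  have hz : ∀ n : ℤ, ((n : ZMod r) = 0) ↔ (r : ℤ) ∣ n :=
    fun n => ZMod.intCast_zmod_eq_zero_iff_dvd n r
  have h2 : (2 : ZMod r) ≠ 0 := by
    intro h5
    have h6 : ((2 : ℕ) : ZMod r) = 0 := by exact_mod_cast h5
    rw [ZMod.natCast_eq_zero_iff] at h6
    exact hr2 ((Nat.prime_dvd_prime_iff_eq Fact.out Nat.prime_two).1 h6)
  have hne : ∀ i, ∀ φ : K i →+* L, cbar φ ≠ φ := fun i => cbar_ne' (hκ i)
  by_contra hcon
  let f : ∀ i, (K i →+* L) → ZMod r := fun i φ => ((c i φ : ℤ) : ZMod r)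
  have hfc : ∀ i φ, f i (cbar φ) = - f i φ := by
    intro i φ
    change ((c i (cbar φ) : ℤ) : ZMod r) = - ((c i φ : ℤ) : ZMod r)
    rw [hc.1]; push_cast; ring
  have hex : ∀ i, ∃ (T : IntermediateField ℚ (K i)) (f' : (T →+* L) → ZMod r),
      (∀ φ, f i φ = f' (res T φ)) ∧ (((∀ φ, f i φ = 0) ∧ T = ⊥) ∨ (NonReal T ∧
      ∀ (σ : L ≃ₐ[ℚ] L) (φ : K i →+* L), (∀ g : L ≃ₐ[ℚ] L, f i (g • σ • φ) = f i (g • φ)) →
      res T (σ • φ) = res T φ)) := by
    intro i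
    by_cases h0 : ∀ φ, f i φ = 0
    · exact ⟨⊥, fun _ => 0, h0, Or.inl ⟨h0, rfl⟩⟩
    · obtain ⟨φ⟩ := hemb i
      obtain ⟨T, f', hf', hmin⟩ := exists_factor φ (f i)
      refine ⟨T, f', hf', Or.inr ⟨?_, hmin⟩⟩
      by_contra hreal
      apply h0
      intro φ
      have h3 : f i (cbar φ) = f i φ := by rw [hf', hf', nonReal_or (hκ i) T hreal]
      rw [hfc] at h3
      have h4 : (2 : ZMod r) * f i φ = 0 := by linear_combination -h3
      exact (mul_eq_zero.1 h4).resolve_left h2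
  choose T f' hf' hT using hex
  obtain ⟨i, x, hx, z, hz1, hz2⟩ := hind T (fun i => (hT i).elim (fun h => Or.inl h.2)
    (fun h => Or.inr h.1)) ⟨i₀, by
      rcases hT i₀ with h | h
      · exact absurd ((hz _).1 (h.1 φ₀)) hcon
      · exact h.1⟩
  apply hz2
  rcases hT i with ⟨h0, hbot⟩ | ⟨hnr, hmin⟩
  · rw [hbot, IntermediateField.mem_bot] at hz1
    obtain ⟨q, rfl⟩ := hz1
    have h3 : x (algebraMap ℚ (K i) q) = algebraMap ℚ L q := by simp
    rw [h3]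
    exact IntermediateField.algebraMap_mem _ q
  refine mem_adjoin_of_fix (f i) (T i) hmin _ x ?_ z hz1
  intro σ hσ
  let F : (L ≃ₐ[ℚ] L) → (Σ j, (K j →+* L)) → ZMod r :=
    fun g s => f s.1 (g • s.2) * ((w s.1 s.2 : ℤ) : ZMod r)
  have hrel : ∀ g : L ≃ₐ[ℚ] L, ∑ s, F g s = 0 := by
    intro g
    have h3 := congrArg (fun n : ℤ => (n : ZMod r)) (hc.2 g⁻¹)
    push_cast at h3
    rw [← h3, Fintype.sum_sigma]
    refine Finset.sum_congr rfl fun j _ => ?_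
    refine Fintype.sum_equiv (MulAction.toPerm g) _ _ fun ψ => ?_
    rw [MulAction.toPerm_apply, inv_smul_smul]
  have hne' : (⟨i, cbar x⟩ : Σ j, (K j →+* L)) ≠ ⟨i, x⟩ := by
    intro h
    exact hne i x (eq_of_heq (Sigma.mk.inj h).2)
  have hsplit : ∀ g : L ≃ₐ[ℚ] L, 2 * (f i (g • x) * ((w i x : ℤ) : ZMod r)) +
      ∑ s ∈ (Finset.univ.erase (⟨i, x⟩ : Σ j, (K j →+* L))).erase ⟨i, cbar x⟩, F g s = 0 := by
    intro g
    have h3 := hrel g
    rw [← Finset.add_sum_erase _ _ (Finset.mem_univ (⟨i, x⟩ : Σ j, (K j →+* L))),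
      ← Finset.add_sum_erase _ _ (Finset.mem_erase.2 ⟨hne', Finset.mem_univ _⟩)] at h3
    have h4 : F g ⟨i, cbar x⟩ = F g ⟨i, x⟩ := by
      change f i (g • cbar x) * ((w i (cbar x) : ℤ) : ZMod r) = f i (g • x) * ((w i x : ℤ) : ZMod r)
      rw [smul_cbar, hfc, hw]
      push_cast
      ring
    rw [h4] at h3
    change F g ⟨i, x⟩ + (F g ⟨i, x⟩ + _) = 0 at h3
    change 2 * F g ⟨i, x⟩ + _ = 0
    rw [← h3]
    ring
  intro g
  have h3 := hsplit (g * σ)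
  have h4 := hsplit g
  have h5 : ∑ s ∈ (Finset.univ.erase (⟨i, x⟩ : Σ j, (K j →+* L))).erase ⟨i, cbar x⟩,
      F (g * σ) s = ∑ s ∈ (Finset.univ.erase (⟨i, x⟩ : Σ j, (K j →+* L))).erase ⟨i, cbar x⟩,
      F g s := by
    refine Finset.sum_congr rfl fun s hs => ?_
    rw [Finset.mem_erase, Finset.mem_erase] at hs
    obtain ⟨j, ψ⟩ := s
    change f j ((g * σ) • ψ) * ((w j ψ : ℤ) : ZMod r) = f j (g • ψ) * ((w j ψ : ℤ) : ZMod r)
    by_cases h6 : (r : ℤ) ∣ w j ψ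
    · rw [(hz _).2 h6, mul_zero, mul_zero]
    · have h7 : res (T j) (σ • ψ) = res (T j) ψ := by
        ext t
        exact hσ (ψ t) ⟨j, ψ, h6, hs.2.1, hs.1, t, t.2, rfl⟩
      rw [mul_smul, hf', hf' j (g • ψ), res_smul (T j) g (σ • ψ), h7, ← res_smul]
  rw [h5] at h3
  have h6 : (2 * ((w i x : ℤ) : ZMod r)) * (f i ((g * σ) • x) - f i (g • x)) = 0 := by
    linear_combination h3 - h4
  have h7 : (2 * ((w i x : ℤ) : ZMod r)) ≠ 0 := mul_ne_zero h2 (fun h => hx ((hz _).1 h))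
  have h8 := (mul_eq_zero.1 h6).resolve_left h7
  rw [mul_smul] at h8
  exact sub_eq_zero.1 h8

/-- If all relations are divisible by `r`, there are none. -/
theorem zero_of_dvdF {w : ∀ i, (K i →+* L) → ℤ}
    {r : ℕ} (hr : r.Prime) (h1 : ∀ c, RelF w c → ∀ i φ, (r : ℤ) ∣ c i φ)
    {c : ∀ i, (K i →+* L) → ℤ} (hc : RelF w c) (i : I) (φ : K i →+* L) : c i φ = 0 := by
  have hr0 : (r : ℤ) ≠ 0 := by exact_mod_cast hr.ne_zero
  have key : ∀ k : ℕ, ∀ c : ∀ i, (K i →+* L) → ℤ, RelF w c → (c i φ).natAbs = k → c i φ = 0 := by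
    intro k
    induction k using Nat.strong_induction_on with
    | _ k ih =>
      intro c hc hk
      choose c' hc' using h1 c hc
      have h2 : RelF w c' := by
        refine ⟨fun i φ => ?_, fun g => ?_⟩
        · apply mul_left_cancel₀ hr0
          rw [← hc', hc.1, hc']
          ring
        · apply mul_left_cancel₀ hr0
          rw [mul_zero, ← hc.2 g, Finset.mul_sum]
          refine Finset.sum_congr rfl fun i _ => ?_
          rw [Finset.mul_sum]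
          refine Finset.sum_congr rfl fun φ _ => ?_
          rw [hc']
          ring
      by_contra h3
      have h4 : (c' i φ).natAbs < k := by
        rw [← hk, hc', Int.natAbs_mul, Int.natAbs_natCast]
        have h5 : 0 < (c' i φ).natAbs := by
          rw [Int.natAbs_pos]
          intro h6
          apply h3
          rw [hc', h6, mul_zero]
        have := hr.two_le
        nlinarith
      apply h3
      rw [hc', ih _ h4 c' h2 rfl, mul_zero]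
  exact key _ c hc rfl

end level

section top

variable {I : Type} [Fintype I] {K : I → Type} [∀ i, Field (K i)] [∀ i, NumberField (K i)]
  [∀ i, IsCMField (K i)] {Ω : Type} [Field Ω] [CharZero Ω]

/-- For some `i`, some element `x` of `S i` maps some element of `T i` outside the compositum of the
images of the fields `T j` under the other elements of the sets `S j` (other than the
conjugate of `x`). -/
def IndependentFamily (S : ∀ i, Set (K i →+* Ω)) (T : ∀ i, IntermediateField ℚ (K i)) : Prop :=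
  ∃ i, ∃ x ∈ S i, ∃ z ∈ T i, x z ∉ IntermediateField.adjoin ℚ
    {t | ∃ j, ∃ y ∈ S j, (⟨j, y⟩ : Σ j, (K j →+* Ω)) ≠ ⟨i, x⟩ ∧
      (⟨j, y⟩ : Σ j, (K j →+* Ω)) ≠ ⟨i, conj x⟩ ∧ ∃ w ∈ T j, t = y w}

theorem indepF_of {L : Type*} [Field L] [NumberField L] (jp : L →+* Ω)
    (hsurj : ∀ i, ∀ τ : K i →+* Ω, ∃ φ : K i →+* L, jp.comp φ = τ) {S : ∀ i, Set (K i →+* Ω)}
    {T : ∀ i, IntermediateField ℚ (K i)} (h : IndependentFamily S T) :
    IndepF (fun i => {φ : K i →+* L | jp.comp φ ∈ S i}) T := by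
  obtain ⟨i, x, hx, z, hz, hn⟩ := h
  obtain ⟨x', rfl⟩ := hsurj i x
  refine ⟨i, x', hx, z, hz, fun hcon => hn ?_⟩
  let J : L →ₐ[ℚ] Ω := RingHom.equivRatAlgHom L Ω jp
  have h1 : J (x' z) ∈ (IntermediateField.adjoin ℚ
    {t | ∃ j, ∃ y ∈ {φ : K j →+* L | jp.comp φ ∈ S j}, (⟨j, y⟩ : Σ j, (K j →+* L)) ≠ ⟨i, x'⟩ ∧
      (⟨j, y⟩ : Σ j, (K j →+* L)) ≠ ⟨i, cbar x'⟩ ∧ ∃ w ∈ T j, t = y w}).map J := ⟨_, hcon, rfl⟩
  rw [IntermediateField.adjoin_map] at h1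
  refine IntermediateField.adjoin.mono ℚ _ _ ?_ h1
  rintro _ ⟨_, ⟨j, y, hy1, hy2, hy3, w, hw, rfl⟩, rfl⟩
  refine ⟨j, jp.comp y, hy1, ?_, ?_, w, hw, rfl⟩
  · intro h
    apply hy2
    obtain ⟨h2, h3⟩ := Sigma.mk.inj h
    subst h2
    rw [comp_inj jp (eq_of_heq h3)]
  · intro h
    apply hy3
    obtain ⟨h2, h3⟩ := Sigma.mk.inj h
    subst h2
    rw [comp_inj jp (eq_of_heq h3 : jp.comp y = jp.comp (cbar x'))]

variable {p : ℕ} [hp : Fact p.Prime] {m : I → ℕ} {π : ∀ i, K i}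

theorem generate_family (hgen : ∀ i, IntermediateField.adjoin ℚ {π i} = ⊤)
    (hweil : ∀ i, ∀ φ : K i →+* ℂ, ‖φ (π i)‖ ^ 2 = (p : ℝ) ^ m i) {κ : I → ℚ}
    (hκ : ∀ i, κ i ≠ 0) {u : ∀ i, (K i →+* PadicAlgCl p) → ℤ}
    (hu : ∀ i, ∀ τ : K i →+* PadicAlgCl p,
      2 * (- Real.logb p ‖τ (π i)‖) - m i = (κ i : ℝ) * u i τ)
    {r : ℕ} (hr : r.Prime) (hr2 : r ≠ 2)
    (hind : ∀ T : ∀ i, IntermediateField ℚ (K i), (∀ i, T i = ⊥ ∨ ¬ IsTotallyReal (T i)) →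
      (∃ i, ¬ IsTotallyReal (T i)) →
        IndependentFamily (fun i => {τ : K i →+* PadicAlgCl p | ¬ (r : ℤ) ∣ u i τ}) T) :
    Norm.PairingsGenerate p m π := by
  classical
  intro Ω _ _ _ V _ _ _ F hF n t s hs c hc φ hφ
  refine tate_of_free_finite p K m π hgen hweil κ hκ u hu ?_ V F hF t s hs c hc φ hφ
  intro L _ _ j h jp
  obtain ⟨κc, hκc⟩ := exists_lift j (starRingAut : ℂ ≃+* ℂ)
  have hκc' : ∀ x, starRingEnd ℂ (j x) = j (κc x) := hκc
  have hκc'' : ∀ i, ∀ φ : K i →+* L, κc • φ = cbar φ := by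
    intro i φ
    apply comp_injective j
    change j.comp (κc • φ) = j.comp (cbar φ)
    rw [comp_cbar]
    exact RingHom.ext fun x => (hκc' (φ x)).symm
  have hemb : ∀ i, Nonempty (K i →+* L) := by
    intro i
    obtain ⟨φ, _⟩ := h i (Classical.arbitrary _)
    exact ⟨φ⟩
  have hsurj : ∀ i, ∀ τ : K i →+* PadicAlgCl p, ∃ φ : K i →+* L, jp.comp φ = τ :=
    fun i τ => exists_factor_emb (hemb i).some jp τ
  have hodd : ∀ i, ∀ φ : K i →+* L, u i (jp.comp (cbar φ)) = - u i (jp.comp φ) :=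
    fun i φ => anti_of_slopes' (hweil i) (hκ i) (hu i) (jp.comp φ)
  intro c hc hrel
  have hR : RelF (fun i (φ : K i →+* L) => u i (jp.comp φ)) c := ⟨hc, hrel⟩
  refine zero_of_dvdF hr (fun c hc i φ => dvd_of_indepF hκc'' r hr hr2 hemb hodd ?_ hc i φ) hR
  intro T hT1 hT2
  obtain ⟨i, hi⟩ := hT2
  exact indepF_of jp hsurj (hind T (fun i => (hT1 i).imp_right fun h => (nonReal_iff _).1 h)
    ⟨i, (nonReal_iff _).1 hi⟩)

end top

end

end Pool.Agent.J4.H95.PA
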