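import Mathlib
import Pool.Agent.J4.H95.PA.Indep

/-!
# The criterion with imaginary quadratic fields
-/

set_option linter.unusedSectionVars false
set_option linter.unusedVariables false

namespace Pool.Agent.J4.H95.PA

open NumberField Module Pool.Agent.H204R3.CM Pool.Agent.H977R3.WN Pool.Agent.W527
  Pool.Agent.H925R2 Pool.Agent.H485R3.Exact

noncomputable section

variable {K : Type} [Field K] [NumberField K] [IsCMField K] {Ω : Type} [Field Ω] [CharZero Ω]

/-- The conditions of the theorem. -/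
def Admissible (u : (K →+* Ω) → ℤ) : Prop :=
  (∀ T : IntermediateField ℚ K, IsTotallyReal T → T ≠ ⊥ → Independent {τ | Odd (u τ)} T) ∨
    (∀ T : IntermediateField ℚ K, IsTotallyReal T → T ≠ ⊥ → Independent {τ | Even (u τ)} T) ∨
    (∃ r : ℕ, r.Prime ∧ ∃ x y, TwoPairs r u x y ∧ AgreeOnQ x y) ∨
    (∃ x y, AllButTwo u x y ∧ AgreeOnQ x y ∧ (finrank ℚ K % 8 ≠ 4 ∨
      ∀ T : IntermediateField ℚ K, IsTotallyReal T → finrank ℚ T ≠ 2))

theorem zeroFree_of_admissible {L : Type*} [Field L] [NumberField L] [IsGalois ℚ L]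
    {κc : L ≃ₐ[ℚ] L} (hκc : ∀ φ : K →+* L, κc • φ = cbar φ)
    {u : (K →+* Ω) → ℤ} (hu : Admissible u) (jp : L →+* Ω)
    (hodd : ∀ φ : K →+* L, u (jp.comp (cbar φ)) = - u (jp.comp φ))
    (hsurj : ∀ τ : K →+* Ω, ∃ φ : K →+* L, jp.comp φ = τ) :
    ZeroFree (fun φ : K →+* L => u (jp.comp φ)) := by
  have hreal : ∀ T : IntermediateField ℚ K, ¬ NonReal T → IsTotallyReal T := by
    intro T hT
    by_contra h
    exact hT ((nonReal_iff T).2 h)
  rcases hu with h | h | ⟨r, hr, x, y, h⟩ | h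
  · refine zeroFree_of_indep hκc hodd {φ : K →+* L | ¬ (2 : ℤ) ∣ u (jp.comp φ)} (Or.inl rfl) ?_
    intro T hT hbot
    have h1 := indep_of jp hsurj (h T (hreal T hT) hbot)
    convert h1 using 2
    funext φ
    rw [← even_iff_two_dvd, Int.not_even_iff_odd]
    rfl
  · refine zeroFree_of_indep hκc hodd {φ : K →+* L | (2 : ℤ) ∣ u (jp.comp φ)} (Or.inr rfl) ?_
    intro T hT hbot
    have h1 := indep_of jp hsurj (h T (hreal T hT) hbot)
    convert h1 using 2
    funext φ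
    rw [← even_iff_two_dvd]
    rfl
  · exact zeroFree_of_sparse hκc hr (Or.inl ⟨x, y, h⟩) jp hodd hsurj
  · exact zeroFree_of_sparse hκc Nat.prime_two (Or.inr (Or.inr h)) jp hodd hsurj

variable {p : ℕ} [hp : Fact p.Prime] {m : ℕ} {π : K}

theorem generate_iff_of_admissible (hint : IsIntegral ℤ π)
    (hgen : IntermediateField.adjoin ℚ {π} = ⊤)
    (hweil : ∀ φ : K →+* ℂ, ‖φ π‖ ^ 2 = (p : ℝ) ^ m) {κ : ℚ} (hκ : κ ≠ 0)
    {u : (K →+* PadicAlgCl p) → ℤ}
    (hu : ∀ τ : K →+* PadicAlgCl p, 2 * (- Real.logb p ‖τ π‖) - m = (κ : ℝ) * u τ)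
    (hsp : Admissible u) :
    Norm.PairingsGenerate (I := Unit) (K := fun _ => K) p (fun _ => m) (fun _ => π) ↔
      ∀ E : IntermediateField ℚ K, finrank ℚ E = 2 → ¬ IsTotallyReal E → ∀ n : ℕ, 0 < n →
        Norm.unitNorm p m E π ^ n ≠ 1 := by
  refine ⟨fun h E _ hE n hn => norm_ne_of_generate hgen hweil h E hE n hn, fun hnn => ?_⟩
  refine generate_of_rel hgen hweil hκ hu ?_
  intro L _ _ j h jp κc hκc hodd hsurj c hc φ
  have hzf := zeroFree_of_admissible hκc hsp jp hodd hsurj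
  by_contra h0
  obtain ⟨T, hT, hdeg, htr⟩ := quad_of_zeroFree hκc hodd hzf hc φ h0
  obtain ⟨n, hn, h1⟩ := root_of_tr_zero j h hint hweil hu jp T htr
  exact hnn T hdeg ((nonReal_iff T).1 hT) n hn h1

end

end Pool.Agent.J4.H95.PA
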